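import Mathlib

/-!
# Nearly equiangular Weyl-Heisenberg orbits

For a finite field `F` with `q` elements, of characteristic different from `2` and `3`, and a
nontrivial additive character `χ` we construct a unit vector `ψ` of `ℂ^F` all of whose overlaps
`⟨ψ, W(a,b) ψ⟩`, `(a,b) ≠ (0,0)`, with its images under the Weyl-Heisenberg operators satisfy
`|(q + 1) |⟨ψ, W(a,b) ψ⟩|² - 1| ≤ (1 + q^(-1/4))^4 - 1`.
-/

set_option autoImplicit false

open Finset

namespace Pool.Agent.W864.AWH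

variable {F : Type} [Field F] [Fintype F] [DecidableEq F]

/-- complete quadratic sums over a finite field of odd characteristic -/
lemma norm_quad (χ : AddChar F ℂ) (hχ : χ ≠ 1) (h2 : (2 : F) ≠ 0) (α β γ : F) (hα : α ≠ 0) :
    ‖∑ x : F, χ (α * x ^ 2 + β * x + γ)‖ ^ 2 = Fintype.card F := by
  have hprim : χ.IsPrimitive := AddChar.IsPrimitive.of_ne_one hχ
  have hconj : ∀ y : F, (starRingEnd ℂ) (χ y) = χ (-y) := fun y => (AddChar.map_neg_eq_conj χ y).symm
  have key : ((‖∑ x : F, χ (α * x ^ 2 + β * x + γ)‖ ^ 2 : ℝ) : ℂ) = (Fintype.card F : ℂ) := by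
    rw [← Complex.normSq_eq_norm_sq, Complex.normSq_eq_conj_mul_self, map_sum, Finset.sum_mul_sum]
    calc ∑ i : F, ∑ j : F, (starRingEnd ℂ) (χ (α * i ^ 2 + β * i + γ)) * χ (α * j ^ 2 + β * j + γ)
        = ∑ i : F, ∑ t : F, χ (α * t ^ 2 + β * t) * χ (i * (2 * α * t)) := by
          refine Finset.sum_congr rfl fun i _ => ?_
          rw [← Equiv.sum_comp (Equiv.addLeft i)]
          refine Finset.sum_congr rfl fun t _ => ?_
          rw [hconj, ← AddChar.map_add_eq_mul, ← AddChar.map_add_eq_mul]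
          congr 1
          simp only [Equiv.coe_addLeft]
          ring
      _ = ∑ t : F, χ (α * t ^ 2 + β * t) * ∑ i : F, χ (i * (2 * α * t)) := by
          rw [Finset.sum_comm]
          refine Finset.sum_congr rfl fun t _ => ?_
          rw [Finset.mul_sum]
      _ = Fintype.card F := by
          rw [Finset.sum_eq_single (0 : F)]
          · simp
          · intro t _ ht
            have : 2 * α * t ≠ 0 := mul_ne_zero (mul_ne_zero h2 hα) ht
            rw [AddChar.sum_mulShift _ hprim, if_neg this]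
            simp
          · simp
  exact_mod_cast key

/-- The Weyl-Heisenberg operator `W(a,b)` of `ℂ^F`: `(W(a,b) ψ)(x) = χ(b x) ψ(x + a)`. -/
noncomputable def weyl (χ : AddChar F ℂ) (a b : F) (ψ : EuclideanSpace ℂ F) :
    EuclideanSpace ℂ F := WithLp.toLp 2 fun x => χ (b * x) * ψ (x + a)

lemma weyl_apply (χ : AddChar F ℂ) (a b : F) (ψ : EuclideanSpace ℂ F) (x : F) :
    weyl χ a b ψ x = χ (b * x) * ψ (x + a) := rfl

lemma norm_char (χ : AddChar F ℂ) (x : F) : ‖χ x‖ = 1 := AddChar.norm_apply χ x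

lemma norm_weyl (χ : AddChar F ℂ) (a b : F) (ψ : EuclideanSpace ℂ F) : ‖weyl χ a b ψ‖ = ‖ψ‖ := by
  rw [EuclideanSpace.norm_eq, EuclideanSpace.norm_eq]
  congr 1
  simp only [weyl_apply, norm_mul, norm_char, one_mul]
  exact Equiv.sum_comp (Equiv.addRight a) (fun x => ‖ψ x‖ ^ 2)

lemma inner_eq (u v : EuclideanSpace ℂ F) :
    inner ℂ u v = ∑ x, (starRingEnd ℂ) (u x) * v x := by
  rw [PiLp.inner_apply]
  refine Finset.sum_congr rfl fun x _ => ?_
  rw [RCLike.inner_apply, mul_comm]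

/-- the overlap of two translates is, up to a phase, an overlap with the vector itself -/
lemma norm_inner_weyl (χ : AddChar F ℂ) (a b a' b' : F) (ψ : EuclideanSpace ℂ F) :
    ‖inner ℂ (weyl χ a b ψ) (weyl χ a' b' ψ)‖ = ‖inner ℂ ψ (weyl χ (a' - a) (b' - b) ψ)‖ := by
  have h : inner ℂ (weyl χ a b ψ) (weyl χ a' b' ψ) =
      χ (-((b' - b) * a)) * inner ℂ ψ (weyl χ (a' - a) (b' - b) ψ) := by
    rw [inner_eq, inner_eq, ← Equiv.sum_comp (Equiv.addRight (-a)), Finset.mul_sum]
    refine Finset.sum_congr rfl fun x _ => ?_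
    simp only [weyl_apply, map_mul, Equiv.coe_addRight]
    rw [← AddChar.map_neg_eq_conj, show x + -a + a = x by ring,
      show x + -a + a' = x + (a' - a) by ring]
    have e : χ (-(b * (x + -a))) * χ (b' * (x + -a)) = χ (-((b' - b) * a)) * χ ((b' - b) * x) := by
      rw [← AddChar.map_add_eq_mul, ← AddChar.map_add_eq_mul]
      congr 1
      ring
    calc χ (-(b * (x + -a))) * (starRingEnd ℂ) (ψ x) * (χ (b' * (x + -a)) * ψ (x + (a' - a)))
        = (χ (-(b * (x + -a))) * χ (b' * (x + -a))) * (starRingEnd ℂ) (ψ x) * ψ (x + (a' - a)) := by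
          ring
      _ = _ := by rw [e]; ring
  rw [h, norm_mul, norm_char, one_mul]

/-- the orbit of any vector is a tight frame -/
lemma tight (χ : AddChar F ℂ) (hχ : χ ≠ 1) (ψ u : EuclideanSpace ℂ F) :
    ∑ a : F, ∑ b : F, ‖inner ℂ (weyl χ a b ψ) u‖ ^ 2 =
      (Fintype.card F : ℝ) * ‖ψ‖ ^ 2 * ‖u‖ ^ 2 := by
  have hprim : χ.IsPrimitive := AddChar.IsPrimitive.of_ne_one hχ
  have h1 : ∀ a : F, ((∑ b : F, ‖inner ℂ (weyl χ a b ψ) u‖ ^ 2 : ℝ) : ℂ) =
      (Fintype.card F : ℂ) * ∑ x : F, ((‖ψ (x + a)‖ ^ 2 * ‖u x‖ ^ 2 : ℝ) : ℂ) := by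
    intro a
    have h2 : ∀ b : F, ((‖inner ℂ (weyl χ a b ψ) u‖ ^ 2 : ℝ) : ℂ) =
        ∑ x : F, ∑ y : F, (ψ (x + a) * (starRingEnd ℂ) (u x) *
          ((starRingEnd ℂ) (ψ (y + a)) * u y)) * χ (b * (x - y)) := by
      intro b
      rw [← Complex.normSq_eq_norm_sq, Complex.normSq_eq_conj_mul_self, inner_eq, map_sum,
        Finset.sum_mul_sum]
      refine Finset.sum_congr rfl fun x _ => Finset.sum_congr rfl fun y _ => ?_
      simp only [weyl_apply, map_mul, Complex.conj_conj]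
      rw [← AddChar.map_neg_eq_conj χ (b * y), show b * (x - y) = b * x + -(b * y) by ring,
        AddChar.map_add_eq_mul]
      ring
    rw [Complex.ofReal_sum]
    simp_rw [h2]
    rw [Finset.sum_comm, Finset.mul_sum]
    refine Finset.sum_congr rfl fun x _ => ?_
    rw [Finset.sum_comm, Finset.sum_eq_single x]
    · rw [← Finset.mul_sum]
      simp only [sub_self, mul_zero, AddChar.map_zero_eq_one, Finset.sum_const, Finset.card_univ,
        nsmul_eq_mul, mul_one]
      push_cast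
      rw [← Complex.mul_conj' (ψ (x + a)), ← Complex.mul_conj' (u x)]
      ring
    · intro y _ hy
      rw [← Finset.mul_sum, AddChar.sum_mulShift _ hprim, if_neg (sub_ne_zero.mpr (Ne.symm hy))]
      simp
    · simp
  have h3 : ((∑ a : F, ∑ b : F, ‖inner ℂ (weyl χ a b ψ) u‖ ^ 2 : ℝ) : ℂ) =
      (((Fintype.card F : ℝ) * ‖ψ‖ ^ 2 * ‖u‖ ^ 2 : ℝ) : ℂ) := by
    rw [Complex.ofReal_sum]
    simp_rw [h1]
    rw [← Finset.mul_sum, Finset.sum_comm]
    have h4 : ∀ x : F, ∑ a : F, ((‖ψ (x + a)‖ ^ 2 * ‖u x‖ ^ 2 : ℝ) : ℂ) =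
        ((‖ψ‖ ^ 2 * ‖u x‖ ^ 2 : ℝ) : ℂ) := by
      intro x
      rw [← Complex.ofReal_sum, ← Finset.sum_mul, EuclideanSpace.norm_sq_eq ψ]
      congr 2
      exact Equiv.sum_comp (Equiv.addLeft x) (fun a => ‖ψ a‖ ^ 2)
    simp_rw [h4]
    rw [← Complex.ofReal_sum, ← Finset.mul_sum, ← EuclideanSpace.norm_sq_eq u]
    push_cast
    ring
  exact_mod_cast h3

/-- amplitude of the fiducial vector -/
noncomputable def amp (q : ℝ) (z : Prop) [Decidable z] : ℝ :=
  if z then √((1 - 1 / √(q + 1)) / q + 1 / √(q + 1)) else √((1 - 1 / √(q + 1)) / q)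

/-- The fiducial vector: a cubic phase with a spike at `0`. -/
noncomputable def fid (χ : AddChar F ℂ) : EuclideanSpace ℂ F :=
  WithLp.toLp 2 fun x => (amp (Fintype.card F) (x = 0) : ℂ) * χ (x ^ 3)

lemma fid_apply (χ : AddChar F ℂ) (x : F) :
    fid χ x = (amp (Fintype.card F) (x = 0) : ℂ) * χ (x ^ 3) := rfl

lemma fid_smul (χ : AddChar F ℂ) (α x : F) (hα : α ^ 3 = 1) : fid χ (α * x) = fid χ x := by
  have h0 : α ≠ 0 := by
    rintro rfl
    simp at hα
  rw [fid_apply, fid_apply, mul_pow, hα, one_mul]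
  congr 2
  simp only [amp, mul_eq_zero, h0, false_or]

section real

variable (q : ℝ)

lemma s_pos {q : ℝ} (hq : 1 ≤ q) : 1 < √(q + 1) := by
  rw [Real.lt_sqrt (by norm_num)]
  linarith

lemma c_nonneg {q : ℝ} (hq : 1 ≤ q) : 0 ≤ (1 - 1 / √(q + 1)) / q := by
  have h := s_pos hq
  apply div_nonneg _ (by linarith)
  rw [sub_nonneg, div_le_one (by linarith)]
  exact h.le

lemma amp_true_sq {q : ℝ} (hq : 1 ≤ q) :
    amp q True ^ 2 = (1 - 1 / √(q + 1)) / q + 1 / √(q + 1) := by
  have h := s_pos hq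
  have h2 := c_nonneg hq
  simp only [amp, if_true]
  rw [Real.sq_sqrt]
  positivity

lemma amp_false_sq {q : ℝ} (hq : 1 ≤ q) : amp q False ^ 2 = (1 - 1 / √(q + 1)) / q := by
  simp only [amp, if_false]
  rw [Real.sq_sqrt (c_nonneg hq)]

lemma amp_t (q : ℝ) {z : Prop} [Decidable z] (h : z) : amp q z = amp q True := by
  simp only [amp, if_true, if_pos h]

lemma amp_f (q : ℝ) {z : Prop} [Decidable z] (h : ¬ z) : amp q z = amp q False := by
  simp only [amp, if_false, if_neg h]

lemma amp_nonneg (q : ℝ) (z : Prop) [Decidable z] : 0 ≤ amp q z := by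
  unfold amp
  split <;> exact Real.sqrt_nonneg _

end real

lemma card_ge (F : Type) [Field F] [Fintype F] : (1 : ℝ) ≤ Fintype.card F := by
  exact_mod_cast Fintype.card_pos

lemma overlap (χ : AddChar F ℂ) (a b : F) :
    inner ℂ (fid χ) (weyl χ a b (fid χ)) =
      ∑ x : F, ((amp (Fintype.card F) (x = 0) * amp (Fintype.card F) (x + a = 0) : ℝ) : ℂ) *
        χ (3 * a * x ^ 2 + (3 * a ^ 2 + b) * x + a ^ 3) := by
  rw [inner_eq]
  refine Finset.sum_congr rfl fun x _ => ?_
  rw [weyl_apply, fid_apply, fid_apply, map_mul, Complex.conj_ofReal,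
    ← AddChar.map_neg_eq_conj χ (x ^ 3)]
  have e : χ (3 * a * x ^ 2 + (3 * a ^ 2 + b) * x + a ^ 3) =
      χ (-x ^ 3) * χ (b * x) * χ ((x + a) ^ 3) := by
    rw [← AddChar.map_add_eq_mul, ← AddChar.map_add_eq_mul]
    congr 1
    ring
  rw [e]
  push_cast
  ring

lemma norm_fid (χ : AddChar F ℂ) : ‖fid χ‖ = 1 := by
  have hq := card_ge F
  set q : ℝ := (Fintype.card F : ℝ) with hqdef
  have h1 : ‖fid χ‖ ^ 2 = 1 := by
    rw [EuclideanSpace.norm_sq_eq]
    have h2 : ∀ x : F, ‖fid χ x‖ ^ 2 = (1 - 1 / √(q + 1)) / q +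
        if x = 0 then 1 / √(q + 1) else 0 := by
      intro x
      rw [fid_apply, norm_mul, norm_char, mul_one, Complex.norm_real, Real.norm_eq_abs, sq_abs]
      by_cases hx : x = 0
      · simp only [hx]
        rw [amp_true_sq hq]
        simp
      · simp only [hx]
        rw [amp_false_sq hq]
        simp
    simp_rw [h2]
    rw [Finset.sum_add_distrib, Finset.sum_const, Finset.sum_ite_eq', if_pos (Finset.mem_univ _),
      Finset.card_univ, nsmul_eq_mul, ← hqdef]
    have : q ≠ 0 := by linarith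
    field_simp
    ring
  have h3 : 0 ≤ ‖fid χ‖ := norm_nonneg _
  nlinarith

/-- the overlaps with `a = 0` are exact -/
lemma overlap_zero (χ : AddChar F ℂ) (hχ : χ ≠ 1) (b : F) (hb : b ≠ 0) :
    ((Fintype.card F : ℝ) + 1) * ‖inner ℂ (fid χ) (weyl χ 0 b (fid χ))‖ ^ 2 = 1 := by
  have hq := card_ge F
  have hprim : χ.IsPrimitive := AddChar.IsPrimitive.of_ne_one hχ
  set q : ℝ := (Fintype.card F : ℝ) with hqdef
  have h1 : inner ℂ (fid χ) (weyl χ 0 b (fid χ)) = ((1 / √(q + 1) : ℝ) : ℂ) := by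
    rw [overlap]
    have h2 : ∀ x : F, ((amp (Fintype.card F) (x = 0) * amp (Fintype.card F) (x + 0 = 0) : ℝ) : ℂ) *
        χ (3 * 0 * x ^ 2 + (3 * 0 ^ 2 + b) * x + 0 ^ 3) =
        (((1 - 1 / √(q + 1)) / q : ℝ) : ℂ) * χ (x * (b - 0)) +
          if x = 0 then ((1 / √(q + 1) : ℝ) : ℂ) else 0 := by
      intro x
      have e : (3 * 0 * x ^ 2 + (3 * 0 ^ 2 + b) * x + 0 ^ 3 : F) = x * (b - 0) := by ring
      rw [e]
      simp only [add_zero]
      rw [← pow_two, ← hqdef]
      by_cases hx : x = 0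
      · simp only [hx]
        rw [amp_true_sq hq]
        simp
      · simp only [hx]
        rw [amp_false_sq hq]
        simp
    simp_rw [h2]
    rw [Finset.sum_add_distrib, Finset.sum_ite_eq', if_pos (Finset.mem_univ _), ← Finset.mul_sum,
      AddChar.sum_mulShift _ hprim, if_neg (by simpa using hb)]
    simp
  rw [h1, Complex.norm_real, Real.norm_eq_abs, sq_abs, div_pow, Real.sq_sqrt (by linarith)]
  field_simp

/-- The deviation from a complete quadratic sum. -/
lemma overlap_near (χ : AddChar F ℂ) (a b : F) (ha : a ≠ 0) :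
    ‖inner ℂ (fid χ) (weyl χ a b (fid χ)) - ((amp (Fintype.card F) False ^ 2 : ℝ) : ℂ) *
      ∑ x : F, χ (3 * a * x ^ 2 + (3 * a ^ 2 + b) * x + a ^ 3)‖ ≤
      2 * (amp (Fintype.card F) True * amp (Fintype.card F) False -
        amp (Fintype.card F) False ^ 2) := by
  have hq := card_ge F
  set q : ℝ := (Fintype.card F : ℝ) with hqdef
  have hmono : amp q False ≤ amp q True := by
    simp only [amp, if_true, if_false]
    apply Real.sqrt_le_sqrt
    have := s_pos hq
    have : 0 ≤ 1 / √(q + 1) := by positivity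
    linarith
  have hF := amp_nonneg q False
  rw [overlap, Finset.mul_sum, ← Finset.sum_sub_distrib]
  refine (norm_sum_le _ _).trans ?_
  have h1 : ∀ x : F, ‖((amp q (x = 0) * amp q (x + a = 0) : ℝ) : ℂ) *
      χ (3 * a * x ^ 2 + (3 * a ^ 2 + b) * x + a ^ 3) - ((amp q False ^ 2 : ℝ) : ℂ) *
      χ (3 * a * x ^ 2 + (3 * a ^ 2 + b) * x + a ^ 3)‖ =
      (if x = 0 then amp q True * amp q False - amp q False ^ 2 else 0) +
      (if x = -a then amp q True * amp q False - amp q False ^ 2 else 0) := by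
    intro x
    rw [← sub_mul, norm_mul, norm_char, mul_one, ← Complex.ofReal_sub, Complex.norm_real,
      Real.norm_eq_abs]
    by_cases hx : x = 0
    · have hx2 : ¬ (x = -a) := by
        rw [hx]
        intro h
        exact ha (by simpa using h.symm)
      have hx3 : ¬ (x + a = 0) := fun h => hx2 (eq_neg_of_add_eq_zero_left h)
      rw [amp_t q hx, amp_f q hx3, if_pos hx, if_neg hx2, add_zero, abs_of_nonneg]
      nlinarith
    · by_cases hx2 : x = -a
      · have hx3 : x + a = 0 := by rw [hx2]; ring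
        rw [amp_t q hx3, amp_f q hx, if_neg hx, if_pos hx2, zero_add, abs_of_nonneg]
        · ring
        · nlinarith
      · have hx3 : ¬ (x + a = 0) := fun h => hx2 (eq_neg_of_add_eq_zero_left h)
        rw [amp_f q hx, amp_f q hx3, if_neg hx, if_neg hx2, ← pow_two, sub_self, abs_zero, add_zero]
  refine (Finset.sum_congr rfl fun x _ => h1 x).trans_le ?_
  rw [Finset.sum_add_distrib, Finset.sum_ite_eq', Finset.sum_ite_eq', if_pos (Finset.mem_univ _),
    if_pos (Finset.mem_univ _)]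
  linarith

/-- elementary estimates for the real parameters -/
lemma real_est {q : ℝ} (hq : 1 ≤ q) :
    |√(q + 1) * (amp q False ^ 2 * √q) - 1| ≤ 1 / √q ∧
    √(q + 1) * (amp q True * amp q False - amp q False ^ 2) ≤ √(1 / √q) := by
  have hs := s_pos hq
  set s := √(q + 1) with hsdef
  have hs2 : s ^ 2 = q + 1 := Real.sq_sqrt (by linarith)
  have hr1 : 1 ≤ √q := by
    rw [Real.one_le_sqrt]
    exact hq
  have hr2 : √q ^ 2 = q := Real.sq_sqrt (by linarith)
  set r := √q with hrdef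
  have hrs : r ≤ s := Real.sqrt_le_sqrt (by linarith)
  have hsr : s ≤ r + 1 := by nlinarith
  have hc : s * amp q False ^ 2 = (s - 1) / q := by
    rw [amp_false_sq hq, ← hsdef]
    have : q ≠ 0 := by linarith
    field_simp
  have hh : s * amp q True ^ 2 = (s - 1) / q + 1 := by
    rw [amp_true_sq hq, ← hsdef]
    have : q ≠ 0 := by linarith
    field_simp
  constructor
  · have e : s * (amp q False ^ 2 * r) = (s - 1) / r := by
      rw [← mul_assoc, hc]
      have : q = r ^ 2 := hr2.symm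
      rw [this]
      field_simp
    rw [e, abs_le]
    constructor
    · rw [le_sub_iff_add_le, ← sub_eq_neg_add]
      rw [le_div_iff₀ (by linarith), sub_mul, div_mul_cancel₀ _ (by linarith)]
      linarith
    · rw [sub_le_iff_le_add, div_le_iff₀ (by linarith), add_mul, div_mul_cancel₀ _ (by linarith)]
      linarith
  · set y := (s - 1) / q with hy
    have hy0 : 0 ≤ y := div_nonneg (by linarith) (by linarith)
    have hy1 : y ≤ 1 / r := by
      rw [hy, div_le_div_iff₀ (by linarith) (by linarith)]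
      nlinarith
    have hAF := amp_nonneg q False
    have hAT := amp_nonneg q True
    have h1 : (s * (amp q True * amp q False)) ^ 2 = (y + 1) * y := by
      calc (s * (amp q True * amp q False)) ^ 2
          = (s * amp q True ^ 2) * (s * amp q False ^ 2) := by ring
        _ = (y + 1) * y := by rw [hh, hc]
    have h2 : s * (amp q True * amp q False) ≤ y + √y := by
      have hy3 : √y ^ 2 = y := Real.sq_sqrt hy0
      have hy4 := Real.sqrt_nonneg y
      have h3 : (s * (amp q True * amp q False)) ^ 2 ≤ (y + √y) ^ 2 := by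
        rw [h1]
        nlinarith [mul_nonneg hy0 hy4]
      exact le_of_sq_le_sq h3 (by positivity)
    have h5 : √y ≤ √(1 / r) := Real.sqrt_le_sqrt hy1
    calc s * (amp q True * amp q False - amp q False ^ 2)
        = s * (amp q True * amp q False) - s * amp q False ^ 2 := by ring
      _ ≤ √(1 / r) := by rw [hc]; linarith

/-- all overlaps are close to `1 / √(q + 1)` -/
lemma overlap_bound (χ : AddChar F ℂ) (hχ : χ ≠ 1) (h2 : (2 : F) ≠ 0) (h3 : (3 : F) ≠ 0)
    (a b : F) (hab : (a, b) ≠ (0, 0)) :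
    |((Fintype.card F : ℝ) + 1) * ‖inner ℂ (fid χ) (weyl χ a b (fid χ))‖ ^ 2 - 1| ≤
      (1 + (Fintype.card F : ℝ) ^ (-(1 / 4) : ℝ)) ^ 4 - 1 := by
  have hq := card_ge F
  have hx0 : 0 ≤ (Fintype.card F : ℝ) ^ (-(1 / 4) : ℝ) := by positivity
  by_cases ha : a = 0
  · subst ha
    have hb : b ≠ 0 := by
      rintro rfl
      exact hab rfl
    rw [overlap_zero χ hχ b hb, sub_self, abs_zero]
    nlinarith [pow_le_pow_left₀ zero_le_one (le_add_of_nonneg_right hx0 :
      (1 : ℝ) ≤ 1 + (Fintype.card F : ℝ) ^ (-(1 / 4) : ℝ)) 4]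
  have hnear := overlap_near χ a b ha
  have hG := norm_quad χ hχ h2 (3 * a) (3 * a ^ 2 + b) (a ^ 3) (mul_ne_zero h3 ha)
  set q : ℝ := (Fintype.card F : ℝ) with hqdef
  set G := ∑ x : F, χ (3 * a * x ^ 2 + (3 * a ^ 2 + b) * x + a ^ 3) with hGdef
  have hG2 : ‖G‖ = √q := by
    rw [← hG, Real.sqrt_sq (norm_nonneg _)]
  set A := inner ℂ (fid χ) (weyl χ a b (fid χ)) with hA
  obtain ⟨e1, e2⟩ := real_est hq
  have hs := s_pos hq
  have hs2 : √(q + 1) ^ 2 = q + 1 := Real.sq_sqrt (by linarith)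
  set s := √(q + 1) with hsdef
  have hr : √(1 / √q) = q ^ (-(1 / 4) : ℝ) := by
    rw [Real.sqrt_eq_rpow, Real.sqrt_eq_rpow, one_div, ← Real.rpow_neg (by linarith),
      ← Real.rpow_mul (by linarith)]
    norm_num
  have hr2 : 1 / √q = (q ^ (-(1 / 4) : ℝ)) ^ 2 := by
    rw [← hr, Real.sq_sqrt (by positivity)]
  rw [hr] at e2
  rw [hr2] at e1
  set x := q ^ (-(1 / 4) : ℝ) with hx
  have hcG : ‖((amp q False ^ 2 : ℝ) : ℂ) * G‖ = amp q False ^ 2 * √q := by
    rw [norm_mul, hG2, Complex.norm_real, Real.norm_eq_abs, abs_of_nonneg (sq_nonneg _)]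
  have h4 : |‖A‖ - amp q False ^ 2 * √q| ≤
      2 * (amp q True * amp q False - amp q False ^ 2) := by
    rw [← hcG]
    exact (abs_norm_sub_norm_le _ _).trans hnear
  have h5 : |s * ‖A‖ - 1| ≤ 2 * x + x ^ 2 := by
    have h6 : |s * ‖A‖ - s * (amp q False ^ 2 * √q)| ≤ 2 * x := by
      rw [← mul_sub, abs_mul, abs_of_pos (by linarith : 0 < s)]
      calc s * |‖A‖ - amp q False ^ 2 * √q|
          ≤ s * (2 * (amp q True * amp q False - amp q False ^ 2)) :=
            mul_le_mul_of_nonneg_left h4 (by linarith)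
        _ = 2 * (s * (amp q True * amp q False - amp q False ^ 2)) := by ring
        _ ≤ 2 * x := by linarith
    calc |s * ‖A‖ - 1| = |(s * ‖A‖ - s * (amp q False ^ 2 * √q)) +
          (s * (amp q False ^ 2 * √q) - 1)| := by ring_nf
      _ ≤ |s * ‖A‖ - s * (amp q False ^ 2 * √q)| + |s * (amp q False ^ 2 * √q) - 1| :=
          abs_add_le _ _
      _ ≤ 2 * x + x ^ 2 := add_le_add h6 e1
  have h7 : (q + 1) * ‖A‖ ^ 2 = (s * ‖A‖) ^ 2 := by
    rw [mul_pow, hs2]
  rw [h7]
  have hA0 := norm_nonneg A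
  set t := s * ‖A‖ with ht
  have ht0 : 0 ≤ t := by positivity
  rw [abs_le] at h5
  have hx00 : 0 ≤ x := hx0
  rw [abs_le]
  constructor
  · by_cases hcase : 1 ≤ t
    · nlinarith [mul_nonneg hx00 hx00, pow_nonneg hx00 3, pow_nonneg hx00 4]
    · push Not at hcase
      nlinarith [mul_nonneg hx00 hx00, pow_nonneg hx00 3, pow_nonneg hx00 4]
  · have h8 : t ≤ (1 + x) ^ 2 := by nlinarith
    have h9 : t ^ 2 ≤ ((1 + x) ^ 2) ^ 2 := pow_le_pow_left₀ ht0 h8 2
    have h10 : ((1 + x) ^ 2) ^ 2 = (1 + x) ^ 4 := by ring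
    linarith

end Pool.Agent.W864.AWH
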