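import Mathlib
import Pool.Agent.H109R2.SICBase
import Pool.Agent.H109R2.SymGroup

set_option autoImplicit false

namespace Pool.Agent.W864.Sym

open Matrix Pool.Agent.H109R2.SIC Pool.Agent.H109R2.SymGroup
open scoped ComplexOrder

variable {d : ℕ} {x : Fin (d ^ 2) → EuclideanSpace ℂ (Fin d)}

/-- `M` is a unitary matrix inducing the permutation `π` of the lines of `x`. -/
def Ind (x : Fin (d ^ 2) → EuclideanSpace ℂ (Fin d)) (M : Matrix (Fin d) (Fin d) ℂ)
    (π : Equiv.Perm (Fin (d ^ 2))) : Prop :=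
  Mᴴ * M = 1 ∧ ∀ i, ∃ c : ℂ, M *ᵥ (x i).ofLp = c • (x (π i)).ofLp

/-- the coefficients have modulus one. -/
theorem coef (hx : IsMaxETF d x) {M : Matrix (Fin d) (Fin d) ℂ} (hM : Mᴴ * M = 1)
    {i j : Fin (d ^ 2)} {c : ℂ} (hc : M *ᵥ (x i).ofLp = c • (x j).ofLp) : star c * c = 1 := by
  have h2 : star (M *ᵥ (x i).ofLp) ⬝ᵥ (M *ᵥ (x i).ofLp) = 1 := by
    rw [star_mulVec, ← Matrix.dotProduct_mulVec, Matrix.mulVec_mulVec, hM,
      Matrix.one_mulVec, dot_self hx]
  rw [hc, star_smul, smul_dotProduct, dotProduct_smul, dot_self hx, smul_eq_mul, smul_eq_mul,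
    mul_one] at h2
  exact h2

/-- The number of fixed lines is `|Tr M|²`. -/
theorem trace_sq (hd : 1 ≤ d) (hx : IsMaxETF d x) {M : Matrix (Fin d) (Fin d) ℂ}
    {π : Equiv.Perm (Fin (d ^ 2))} (h : Ind x M π) :
    trace M * star (trace M) = ((Finset.univ.filter fun i => π i = i).card : ℂ) := by
  have hd1 := d1_ne (d := d)
  have hd0 : (d : ℂ) ≠ 0 := by exact_mod_cast (by omega : d ≠ 0)
  have h1 := design2 hx M Mᴴ
  have h2 : M * Mᴴ = 1 := mul_eq_one_comm.mp h.1
  rw [h2, trace_one, Fintype.card_fin, trace_conjTranspose] at h1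
  have h3 : ∀ i, trace (P x i * M) * trace (P x i * Mᴴ)
      = (if π i = i then ((d : ℂ) / ((d : ℂ) + 1)) else 0) + 1 / ((d : ℂ) + 1) := by
    intro i
    obtain ⟨c, hc⟩ := h.2 i
    have e1 : trace (P x i * M) = c * inner ℂ (x i) (x (π i)) := by
      rw [trace_P_mul_mulVec, hc, dotProduct_smul, smul_eq_mul, dot_eq_inner]
    have e2 : trace (P x i * Mᴴ) = star (trace (P x i * M)) := by
      rw [← trace_conjTranspose, conjTranspose_mul, P_herm, trace_mul_comm]
    have e3 : star (inner ℂ (x i) (x (π i))) = inner ℂ (x (π i)) (x i) := inner_conj_symm _ _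
    have e4 := coef hx h.1 hc
    have e5 := inner_mul_inner hx i (π i)
    rw [e2, e1, star_mul, e3]
    have e6 : c * inner ℂ (x i) (x (π i)) * (inner ℂ (x (π i)) (x i) * star c)
        = (if i = π i then (1 : ℂ) else 1 / ((d : ℂ) + 1)) := by
      rw [← e5]
      linear_combination (inner ℂ (x i) (x (π i)) * inner ℂ (x (π i)) (x i)) * e4
    rw [e6]
    by_cases hi : π i = i
    · rw [if_pos hi, if_pos hi.symm]
      field_simp
    · rw [if_neg hi, if_neg (fun h => hi h.symm)]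
      simp
  simp only [h3, Finset.sum_add_distrib, Finset.sum_const, Finset.card_univ, Fintype.card_fin,
    nsmul_eq_mul] at h1
  rw [← Finset.sum_filter, Finset.sum_const, nsmul_eq_mul] at h1
  push_cast at h1
  field_simp at h1
  linear_combination -h1

/-- two fixed lines have the same eigenvalue. -/
theorem same_eigen (hx : IsMaxETF d x) {M : Matrix (Fin d) (Fin d) ℂ} (hM : Mᴴ * M = 1)
    {i j : Fin (d ^ 2)} {c c' : ℂ} (hc : M *ᵥ (x i).ofLp = c • (x i).ofLp)
    (hc' : M *ᵥ (x j).ofLp = c' • (x j).ofLp) : c' = c := by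
  have h1 := coef hx hM hc
  have h2 : star (M *ᵥ (x i).ofLp) ⬝ᵥ (M *ᵥ (x j).ofLp)
      = star (x i).ofLp ⬝ᵥ (x j).ofLp := by
    rw [star_mulVec, ← Matrix.dotProduct_mulVec, Matrix.mulVec_mulVec, hM,
      Matrix.one_mulVec]
  rw [hc, hc', star_smul, smul_dotProduct, dotProduct_smul, smul_eq_mul, smul_eq_mul,
    dot_eq_inner] at h2
  have h3 : inner ℂ (x i) (x j) ≠ 0 := by
    intro h0
    have h4 := inner_mul_inner hx i j
    rw [h0, zero_mul] at h4
    have hd1 := d1_ne (d := d)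
    split_ifs at h4
    · exact zero_ne_one h4
    · exact one_div_ne_zero hd1 h4.symm
  have h5 : star c * c' = 1 := by
    have : (star c * c' - 1) * inner ℂ (x i) (x j) = 0 := by linear_combination h2
    have := (mul_eq_zero.mp this).resolve_right h3
    linear_combination this
  have h6 : star c ≠ 0 := by
    intro h0
    rw [h0, zero_mul] at h1
    exact zero_ne_one h1
  have h7 : star c * (c' - c) = 0 := by linear_combination h5 - h1
  have := (mul_eq_zero.mp h7).resolve_left h6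
  linear_combination this

/-- relative bound in an invariant subspace. -/
theorem rel_bound (hd : 1 ≤ d) (hx : IsMaxETF d x) {Q : Matrix (Fin d) (Fin d) ℂ}
    (hQ : Q * Q = Q) (hQh : Qᴴ = Q) (T : Finset (Fin (d ^ 2)))
    (hT : ∀ i ∈ T, Q *ᵥ (x i).ofLp = (x i).ofLp) {μ : ℝ} (hμ : trace Q = (μ : ℂ)) :
    0 ≤ ((d : ℝ) - μ) * (d * μ - T.card * (d - μ + 1)) := by
  have hd1 := d1_ne (d := d)
  set w : Fin (d ^ 2) → ℝ := fun i => (trace (P x i * Q)).re with hw
  have hwr : ∀ i, trace (P x i * Q) = (w i : ℂ) := by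
    intro i
    have h1 : star (trace (P x i * Q)) = trace (P x i * Q) := by
      rw [← trace_conjTranspose, conjTranspose_mul, P_herm, hQh, trace_mul_comm]
    exact (Complex.conj_eq_iff_re.mp h1).symm
  have hsum : ∑ i, w i = d * μ := by
    have h1 : ∑ i, trace (P x i * Q) = (d : ℂ) * μ := by
      rw [← trace_sum, ← Finset.sum_mul, sum_P hx, smul_mul_assoc, Matrix.one_mul, trace_smul, hμ,
        smul_eq_mul]
    simp only [hwr] at h1
    exact_mod_cast h1
  have hsum2 : ∑ i, w i ^ 2 = ((d : ℝ) / (d + 1)) * (μ + μ * μ) := by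
    have h1 := design2 hx Q Q
    simp only [hwr, hQ, hμ] at h1
    have h2 : (((∑ i, w i ^ 2 : ℝ)) : ℂ) = ((((d : ℝ) / (d + 1)) * (μ + μ * μ) : ℝ) : ℂ) := by
      push_cast
      rw [← h1]
      exact Finset.sum_congr rfl fun i _ => by ring
    exact_mod_cast h2
  have hwT : ∀ i ∈ T, w i = 1 := by
    intro i hi
    have h1 := hwr i
    rw [trace_P_mul_mulVec, hT i hi, dot_self hx] at h1
    exact_mod_cast h1.symm
  have e1 : ∑ i ∈ Tᶜ, w i = d * μ - T.card := by
    have h1 := Finset.sum_add_sum_compl T w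
    rw [Finset.sum_congr rfl hwT, hsum] at h1
    simp only [Finset.sum_const, nsmul_eq_mul, mul_one] at h1
    linarith
  have e2 : ∑ i ∈ Tᶜ, w i ^ 2 = ((d : ℝ) / (d + 1)) * (μ + μ * μ) - T.card := by
    have h1 := Finset.sum_add_sum_compl T (fun i => w i ^ 2)
    rw [Finset.sum_congr rfl (fun i hi => by rw [hwT i hi]), hsum2] at h1
    simp only [Finset.sum_const, nsmul_eq_mul, one_pow, mul_one] at h1
    linarith
  have e3 : ((Tᶜ).card : ℝ) = (d : ℝ) ^ 2 - T.card := by
    rw [Finset.card_compl, Fintype.card_fin, Nat.cast_sub]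
    · push_cast; ring
    · have := Finset.card_le_univ T
      rwa [Fintype.card_fin] at this
  have e5 : (∑ i ∈ Tᶜ, w i) ^ 2 ≤ ((Tᶜ).card : ℝ) * ∑ i ∈ Tᶜ, w i ^ 2 := by
    exact sq_sum_le_card_mul_sum_sq
  rw [e1, e2, e3] at e5
  have hdp : (0 : ℝ) < d := by exact_mod_cast hd
  have key : ((d : ℝ) ^ 2 - T.card) * (((d : ℝ) / (d + 1)) * (μ + μ * μ) - T.card)
      - (d * μ - T.card) ^ 2
      = ((d : ℝ) / (d + 1)) * (((d : ℝ) - μ) * (d * μ - T.card * (d - μ + 1))) := by
    field_simp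
    ring
  have h6 : 0 ≤ ((d : ℝ) / (d + 1)) * (((d : ℝ) - μ) * (d * μ - T.card * (d - μ + 1))) := by
    rw [← key]; linarith
  exact (mul_nonneg_iff_of_pos_left (by positivity)).mp h6

end Pool.Agent.W864.Sym
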