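import Mathlib
import Pool.Agent.W864.SymBase

set_option autoImplicit false

namespace Pool.Agent.W864.Sym

open Matrix Pool.Agent.H109R2.SIC Pool.Agent.H109R2.SymGroup
open scoped ComplexOrder

variable {d : ℕ} {x : Fin (d ^ 2) → EuclideanSpace ℂ (Fin d)}

theorem Ind.one : Ind x 1 1 := ⟨by simp, fun i => ⟨1, by simp⟩⟩

theorem Ind.mul {M N : Matrix (Fin d) (Fin d) ℂ} {π σ : Equiv.Perm (Fin (d ^ 2))}
    (h : Ind x M π) (h' : Ind x N σ) : Ind x (M * N) (π * σ) := by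
  refine ⟨?_, fun i => ?_⟩
  · rw [conjTranspose_mul]
    calc Nᴴ * Mᴴ * (M * N) = Nᴴ * (Mᴴ * M) * N := by noncomm_ring
      _ = 1 := by rw [h.1, mul_one, h'.1]
  · obtain ⟨c, hc⟩ := h'.2 i
    obtain ⟨c', hc'⟩ := h.2 (σ i)
    refine ⟨c * c', ?_⟩
    rw [← Matrix.mulVec_mulVec, hc, Matrix.mulVec_smul, hc', smul_smul]
    rfl

theorem Ind.pow {M : Matrix (Fin d) (Fin d) ℂ} {π : Equiv.Perm (Fin (d ^ 2))}
    (h : Ind x M π) (j : ℕ) : Ind x (M ^ j) (π ^ j) := by
  induction j with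
  | zero => simpa using Ind.one
  | succ j ih => rw [pow_succ, pow_succ]; exact ih.mul h

theorem Ind.smul {M : Matrix (Fin d) (Fin d) ℂ} {π : Equiv.Perm (Fin (d ^ 2))}
    (h : Ind x M π) {c : ℂ} (hc : star c * c = 1) : Ind x (c • M) π := by
  refine ⟨?_, fun i => ?_⟩
  · rw [conjTranspose_smul, smul_mul_smul_comm, h.1, hc, one_smul]
  · obtain ⟨c', hc'⟩ := h.2 i
    exact ⟨c * c', by rw [Matrix.smul_mulVec, hc', smul_smul]⟩

/-- a matrix inducing the identity is scalar. -/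
theorem Ind.scalar (hx : IsMaxETF d x) {M : Matrix (Fin d) (Fin d) ℂ} (h : Ind x M 1) :
    ∃ c : ℂ, M = c • 1 := scalar_of_fix hx M h.1 h.2

theorem vec_ne (hx : IsMaxETF d x) (i : Fin (d ^ 2)) : (x i).ofLp ≠ 0 := by
  intro h0
  have := dot_self hx i
  rw [h0] at this
  simp at this

theorem Ind.eq_one (hx : IsMaxETF d x) {M : Matrix (Fin d) (Fin d) ℂ} (h : Ind x M 1)
    {i : Fin (d ^ 2)} (hi : M *ᵥ (x i).ofLp = (x i).ofLp) : M = 1 := by
  obtain ⟨c, rfl⟩ := h.scalar hx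
  rw [Matrix.smul_mulVec, Matrix.one_mulVec] at hi
  have h1 : (c - 1) • (x i).ofLp = 0 := by rw [sub_smul, hi, one_smul, sub_self]
  rcases smul_eq_zero.mp h1 with h2 | h2
  · rw [sub_eq_zero.mp h2, one_smul]
  · exact absurd h2 (vec_ne hx i)

/-- two matrices inducing the same permutation and agreeing on a fixed vector are equal. -/
theorem Ind.unique (hx : IsMaxETF d x) {M N : Matrix (Fin d) (Fin d) ℂ}
    {π : Equiv.Perm (Fin (d ^ 2))} (h : Ind x M π) (h' : Ind x N π)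
    {i : Fin (d ^ 2)} (hi : M *ᵥ (x i).ofLp = (x i).ofLp)
    (hi' : N *ᵥ (x i).ofLp = (x i).ofLp) : M = N := by
  have hfix : ∀ k, ∃ c : ℂ, (Nᴴ * M) *ᵥ (x k).ofLp = c • (x k).ofLp := by
    intro k
    obtain ⟨c, hc⟩ := h.2 k
    obtain ⟨c', hc'⟩ := h'.2 k
    have e1 := coef hx h'.1 hc'
    have hc0 : c' ≠ 0 := by
      rintro rfl
      rw [mul_zero] at e1
      exact zero_ne_one e1
    refine ⟨c * c'⁻¹, ?_⟩
    have e2 : (x (π k)).ofLp = c'⁻¹ • (N *ᵥ (x k).ofLp) := by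
      rw [hc', smul_smul, inv_mul_cancel₀ hc0, one_smul]
    rw [← Matrix.mulVec_mulVec, hc, Matrix.mulVec_smul, e2, Matrix.mulVec_smul,
      Matrix.mulVec_mulVec, h'.1, Matrix.one_mulVec, smul_smul]
  have hNN : N * Nᴴ = 1 := mul_eq_one_comm.mp h'.1
  have hMM : M * Mᴴ = 1 := mul_eq_one_comm.mp h.1
  have hu : Ind x (Nᴴ * M) 1 := by
    refine ⟨?_, hfix⟩
    rw [conjTranspose_mul, conjTranspose_conjTranspose]
    calc Mᴴ * N * (Nᴴ * M) = Mᴴ * (N * Nᴴ) * M := by noncomm_ring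
      _ = 1 := by rw [hNN, mul_one, h.1]
  have h1 : Nᴴ * M = 1 := by
    refine hu.eq_one hx (i := i) ?_
    rw [← Matrix.mulVec_mulVec, hi]
    nth_rewrite 1 [← hi']
    rw [Matrix.mulVec_mulVec, h'.1, Matrix.one_mulVec]
  calc M = (N * Nᴴ) * M := by rw [hNN, one_mul]
    _ = N * (Nᴴ * M) := by noncomm_ring
    _ = N := by rw [h1, mul_one]

/-- normalisation at a fixed line. -/
theorem Ind.normalise (hx : IsMaxETF d x) {M : Matrix (Fin d) (Fin d) ℂ}
    {π : Equiv.Perm (Fin (d ^ 2))} (h : Ind x M π) {i : Fin (d ^ 2)} (hi : π i = i) :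
    ∃ N : Matrix (Fin d) (Fin d) ℂ, Ind x N π ∧ (∃ c : ℂ, star c * c = 1 ∧ N = c • M) ∧
      ∀ j, π j = j → N *ᵥ (x j).ofLp = (x j).ofLp := by
  obtain ⟨c, hc⟩ := h.2 i
  rw [hi] at hc
  have e1 := coef hx h.1 hc
  have e2 : star (star c) * star c = 1 := by rw [star_star, mul_comm]; exact e1
  refine ⟨star c • M, h.smul e2, ⟨star c, e2, rfl⟩, fun j hj => ?_⟩
  obtain ⟨c', hc'⟩ := h.2 j
  rw [hj] at hc'
  have e3 := same_eigen hx h.1 hc hc'
  rw [Matrix.smul_mulVec, hc', e3, smul_smul, e1, one_smul]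

/-- the number of fixed points. -/
def fix (π : Equiv.Perm (Fin (d ^ 2))) : ℕ := (Finset.univ.filter fun i => π i = i).card

theorem norm_trace_sq (hd : 1 ≤ d) (hx : IsMaxETF d x) {M : Matrix (Fin d) (Fin d) ℂ}
    {π : Equiv.Perm (Fin (d ^ 2))} (h : Ind x M π) : ‖trace M‖ ^ 2 = (fix π : ℝ) := by
  have h1 := trace_sq hd hx h
  have h2 : trace M * star (trace M) = ((‖trace M‖ ^ 2 : ℝ) : ℂ) := by
    rw [show star (trace M) = (starRingEnd ℂ) (trace M) from rfl, RCLike.mul_conj]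
    norm_cast
  rw [h2] at h1
  exact_mod_cast h1

theorem fix_lt {π : Equiv.Perm (Fin (d ^ 2))} (hπ : π ≠ 1) : fix π < d ^ 2 := by
  obtain ⟨i, hi⟩ : ∃ i, π i ≠ i := by
    by_contra h
    push Not at h
    exact hπ (Equiv.ext h)
  have : (Finset.univ.filter fun i => π i = i).card < (Finset.univ : Finset (Fin (d ^ 2))).card :=
    Finset.card_lt_card (Finset.filter_ssubset.mpr ⟨i, Finset.mem_univ _, hi⟩)
  rwa [Finset.card_univ, Fintype.card_fin] at this

/-- for a permutation of prime order the powers have the same fixed points. -/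
theorem fix_pow {π : Equiv.Perm (Fin (d ^ 2))} {p : ℕ} (hp : p.Prime) (hπ : π ^ p = 1) {j : ℕ}
    (hj0 : 0 < j) (hjp : j < p) (i : Fin (d ^ 2)) : (π ^ j) i = i ↔ π i = i := by
  constructor
  · intro h
    have h1 : Function.IsPeriodicPt π j i := by
      unfold Function.IsPeriodicPt Function.IsFixedPt
      rw [Equiv.Perm.iterate_eq_pow]; exact h
    have h2 : Function.IsPeriodicPt π p i := by
      unfold Function.IsPeriodicPt Function.IsFixedPt
      rw [Equiv.Perm.iterate_eq_pow, hπ]; rfl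
    have h3 := h1.gcd h2
    have h4 : Nat.gcd j p = 1 := Nat.coprime_comm.mp
      ((Nat.Prime.coprime_iff_not_dvd hp).mpr (Nat.not_dvd_of_pos_of_lt hj0 hjp))
    rw [h4] at h3
    simpa [Function.IsPeriodicPt, Function.IsFixedPt] using h3
  · intro h
    have : ∀ k : ℕ, (π ^ k) i = i := by
      intro k
      induction k with
      | zero => simp
      | succ k ih => rw [pow_succ π k, Equiv.Perm.mul_apply, h, ih]
    exact this j

theorem fix_pow_card {π : Equiv.Perm (Fin (d ^ 2))} {p : ℕ} (hp : p.Prime) (hπ : π ^ p = 1)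
    {j : ℕ} (hj0 : 0 < j) (hjp : j < p) : fix (π ^ j) = fix π := by
  unfold fix
  congr 1
  ext i
  simp [fix_pow hp hπ hj0 hjp]

/-- the projection to the fixed space of a matrix of finite order. -/
noncomputable def proj (p : ℕ) (N : Matrix (Fin d) (Fin d) ℂ) : Matrix (Fin d) (Fin d) ℂ :=
  (1 / (p : ℂ)) • ∑ j ∈ Finset.range p, N ^ j

theorem mul_proj {p : ℕ} {N : Matrix (Fin d) (Fin d) ℂ} (hN : N ^ p = 1) :
    N * proj p N = proj p N := by
  unfold proj
  rw [mul_smul_comm, Finset.mul_sum]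
  congr 1
  have h1 : ∑ j ∈ Finset.range p, N * N ^ j = ∑ j ∈ Finset.range p, N ^ (j + 1) :=
    Finset.sum_congr rfl fun j _ => by rw [pow_succ']
  rw [h1]
  have h2 := Finset.sum_range_succ (fun j => N ^ j) p
  have h3 := Finset.sum_range_succ' (fun j => N ^ j) p
  rw [h2] at h3
  rw [hN, pow_zero] at h3
  exact (add_right_cancel h3).symm

theorem pow_mul_proj {p : ℕ} {N : Matrix (Fin d) (Fin d) ℂ} (hN : N ^ p = 1) (j : ℕ) :
    N ^ j * proj p N = proj p N := by
  induction j with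
  | zero => simp
  | succ j ih => rw [pow_succ, mul_assoc, mul_proj hN, ih]

theorem proj_idem {p : ℕ} (hp : p ≠ 0) {N : Matrix (Fin d) (Fin d) ℂ} (hN : N ^ p = 1) :
    proj p N * proj p N = proj p N := by
  have hp0 : (p : ℂ) ≠ 0 := by exact_mod_cast hp
  conv_lhs => enter [1]; rw [proj]
  rw [smul_mul_assoc, Finset.sum_mul]
  simp only [pow_mul_proj hN, Finset.sum_const, Finset.card_range]
  rw [← Nat.cast_smul_eq_nsmul ℂ, smul_smul]
  rw [one_div, inv_mul_cancel₀ hp0, one_smul]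

theorem proj_herm {p : ℕ} (hp : p ≠ 0) {N : Matrix (Fin d) (Fin d) ℂ} (hN : N ^ p = 1)
    (hu : Nᴴ * N = 1) : (proj p N)ᴴ = proj p N := by
  have hp0 : (p : ℂ) ≠ 0 := by exact_mod_cast hp
  have h1 : Nᴴ * proj p N = proj p N := by
    have h2 : Nᴴ * (N * proj p N) = Nᴴ * proj p N := by rw [mul_proj hN]
    rw [← h2, ← mul_assoc, hu, one_mul]
  have h2 : ∀ j : ℕ, (N ^ j)ᴴ * proj p N = proj p N := by
    intro j
    induction j with
    | zero => simp
    | succ j ih => rw [pow_succ, conjTranspose_mul, mul_assoc, ih, h1]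
  have h3 : (proj p N)ᴴ * proj p N = proj p N := by
    conv_lhs => enter [1]; rw [proj]
    rw [conjTranspose_smul, conjTranspose_sum, smul_mul_assoc, Finset.sum_mul]
    simp only [h2, Finset.sum_const, Finset.card_range]
    rw [← Nat.cast_smul_eq_nsmul ℂ, smul_smul]
    have : star (1 / (p : ℂ)) * p = 1 := by
      rw [star_div₀, star_one, star_natCast, one_div, inv_mul_cancel₀ hp0]
    rw [this, one_smul]
  calc (proj p N)ᴴ = ((proj p N)ᴴ * proj p N)ᴴ := by rw [h3]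
    _ = (proj p N)ᴴ * proj p N := by rw [conjTranspose_mul, conjTranspose_conjTranspose]
    _ = _ := h3

theorem proj_fix {p : ℕ} (hp : p ≠ 0) {N : Matrix (Fin d) (Fin d) ℂ} {v : Fin d → ℂ}
    (hv : N *ᵥ v = v) : proj p N *ᵥ v = v := by
  have hp0 : (p : ℂ) ≠ 0 := by exact_mod_cast hp
  have h1 : ∀ j : ℕ, N ^ j *ᵥ v = v := by
    intro j
    induction j with
    | zero => simp
    | succ j ih => rw [pow_succ, ← Matrix.mulVec_mulVec, hv, ih]
  unfold proj
  rw [Matrix.smul_mulVec, Matrix.sum_mulVec]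
  simp only [h1, Finset.sum_const, Finset.card_range]
  rw [← Nat.cast_smul_eq_nsmul ℂ, smul_smul, one_div, inv_mul_cancel₀ hp0, one_smul]

theorem proj_trace {p : ℕ} {N : Matrix (Fin d) (Fin d) ℂ} :
    trace (proj p N) = (1 / (p : ℂ)) * ∑ j ∈ Finset.range p, trace (N ^ j) := by
  unfold proj
  rw [trace_smul, trace_sum, smul_eq_mul]

end Pool.Agent.W864.Sym
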