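import Mathlib
import Pool.Agent.W864.SymPow

set_option autoImplicit false

namespace Pool.Agent.W864.Sym

open Matrix Pool.Agent.H109R2.SIC Pool.Agent.H109R2.SymGroup
open scoped ComplexOrder

variable {d : ℕ} {x : Fin (d ^ 2) → EuclideanSpace ℂ (Fin d)}

theorem ortho {p : ℕ} {ζ : ℂ} (hζ : IsPrimitiveRoot ζ p) (hu : star ζ * ζ = 1) {j k : ℕ}
    (hj : j < p) (hk : k < p) :
    ∑ a ∈ Finset.range p, (ζ ^ j * (star ζ) ^ k) ^ a = if j = k then (p : ℂ) else 0 := by
  have hsk : ∀ k : ℕ, (star ζ) ^ k * ζ ^ k = 1 := fun k => by rw [← mul_pow, hu, one_pow]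
  split_ifs with h
  · subst h
    have h1 : ζ ^ j * (star ζ) ^ j = 1 := by rw [mul_comm]; exact hsk j
    rw [h1]
    simp
  · set z := ζ ^ j * (star ζ) ^ k with hz
    have hz1 : z ≠ 1 := by
      intro h1
      apply h
      apply hζ.pow_inj hj hk
      have : z * ζ ^ k = ζ ^ j := by rw [hz, mul_assoc, hsk, mul_one]
      rw [← this, h1, one_mul]
    have hzp : z ^ p = 1 := by
      have h2 : (star ζ) ^ p = 1 := by rw [← star_pow, hζ.pow_eq_one, star_one]
      rw [hz, mul_pow, ← pow_mul, ← pow_mul, mul_comm j, mul_comm k, pow_mul, pow_mul,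
        hζ.pow_eq_one, h2, one_pow, one_pow, one_mul]
    have h3 := geom_sum_mul z p
    rw [hzp, sub_self] at h3
    exact (mul_eq_zero.mp h3).resolve_right (sub_ne_zero.mpr hz1)

/-- finite Parseval identity. -/
theorem parseval {p : ℕ} (hp : p ≠ 0) {ζ : ℂ} (hζ : IsPrimitiveRoot ζ p) (hu : star ζ * ζ = 1)
    (t : ℕ → ℂ) :
    ∑ a ∈ Finset.range p, ((1 / (p : ℂ)) * ∑ j ∈ Finset.range p, (ζ ^ a) ^ j * t j)
      * star ((1 / (p : ℂ)) * ∑ j ∈ Finset.range p, (ζ ^ a) ^ j * t j)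
      = (1 / (p : ℂ)) * ∑ j ∈ Finset.range p, t j * star (t j) := by
  have hp0 : (p : ℂ) ≠ 0 := by exact_mod_cast hp
  have h1 : ∀ a, ((1 / (p : ℂ)) * ∑ j ∈ Finset.range p, (ζ ^ a) ^ j * t j)
      * star ((1 / (p : ℂ)) * ∑ j ∈ Finset.range p, (ζ ^ a) ^ j * t j)
      = (1 / (p : ℂ)) ^ 2 * ∑ j ∈ Finset.range p, ∑ k ∈ Finset.range p,
          (ζ ^ j * (star ζ) ^ k) ^ a * (t j * star (t k)) := by
    intro a
    rw [star_mul, star_sum, star_div₀, star_one, star_natCast]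
    calc 1 / (p : ℂ) * (∑ j ∈ Finset.range p, (ζ ^ a) ^ j * t j)
        * ((∑ j ∈ Finset.range p, star ((ζ ^ a) ^ j * t j)) * (1 / (p : ℂ)))
        = (1 / (p : ℂ)) ^ 2 * ((∑ j ∈ Finset.range p, (ζ ^ a) ^ j * t j)
          * (∑ j ∈ Finset.range p, star ((ζ ^ a) ^ j * t j))) := by ring
      _ = _ := by
        rw [Finset.sum_mul_sum]
        congr 1
        refine Finset.sum_congr rfl fun j _ => Finset.sum_congr rfl fun k _ => ?_
        rw [star_mul, star_pow, star_pow, mul_pow, ← pow_mul, ← pow_mul, ← pow_mul, ← pow_mul,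
          mul_comm j a, mul_comm k a]
        ring
  simp only [h1]
  rw [← Finset.mul_sum, Finset.sum_comm]
  have h2 : ∀ j ∈ Finset.range p, ∑ a ∈ Finset.range p, ∑ k ∈ Finset.range p,
      (ζ ^ j * (star ζ) ^ k) ^ a * (t j * star (t k)) = (p : ℂ) * (t j * star (t j)) := by
    intro j hj
    rw [Finset.sum_comm]
    have h3 : ∀ k ∈ Finset.range p, ∑ a ∈ Finset.range p,
        (ζ ^ j * (star ζ) ^ k) ^ a * (t j * star (t k))
        = if j = k then (p : ℂ) * (t j * star (t k)) else 0 := by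
      intro k hk
      rw [← Finset.sum_mul, ortho hζ hu (Finset.mem_range.mp hj) (Finset.mem_range.mp hk)]
      split_ifs <;> simp
    rw [Finset.sum_congr rfl h3, Finset.sum_ite_eq, if_pos hj]
  rw [Finset.sum_congr rfl h2, ← Finset.mul_sum]
  field_simp

/-- The eigenvalue multiplicities of a symmetry of prime order with a fixed line. -/
theorem mult (hd : 1 ≤ d) (hx : IsMaxETF d x) {π : Equiv.Perm (Fin (d ^ 2))} {p : ℕ}
    (hp : p.Prime) (hπp : π ^ p = 1) (hπ : π ≠ 1) {N : Matrix (Fin d) (Fin d) ℂ}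
    (hN : Ind x N π) (hNp : N ^ p = 1) (hfix : ∀ j, π j = j → N *ᵥ (x j).ofLp = (x j).ofLp) :
    ∃ m : ℕ → ℕ, ∑ a ∈ Finset.range p, m a = d ∧
      p * ∑ a ∈ Finset.range p, m a ^ 2 = d ^ 2 + (p - 1) * fix π ∧
      (0 : ℝ) ≤ ((d : ℝ) - m 0) * (d * m 0 - fix π * (d - m 0 + 1)) ∧ m 0 < d := by
  have hp0 : p ≠ 0 := hp.ne_zero
  have hpc : (p : ℂ) ≠ 0 := by exact_mod_cast hp0
  set ζ : ℂ := Complex.exp (2 * Real.pi * Complex.I / p) with hζdef
  have hζ : IsPrimitiveRoot ζ p := Complex.isPrimitiveRoot_exp p hp0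
  have hu : star ζ * ζ = 1 := by
    have h1 : ‖ζ‖ = 1 := hζ.norm'_eq_one hp0
    rw [show star ζ = (starRingEnd ℂ) ζ from rfl, RCLike.conj_mul, h1]
    norm_num
  have hua : ∀ a : ℕ, star (ζ ^ a) * ζ ^ a = 1 := fun a => by
    rw [star_pow, ← mul_pow, hu, one_pow]
  have hNa : ∀ a : ℕ, ((ζ ^ a) • N) ^ p = 1 := fun a => by
    rw [smul_pow, hNp, ← pow_mul, mul_comm, pow_mul, hζ.pow_eq_one, one_pow, one_smul]
  have hUa : ∀ a : ℕ, ((ζ ^ a) • N)ᴴ * ((ζ ^ a) • N) = 1 := fun a => (hN.smul (hua a)).1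
  set m : ℕ → ℕ := fun a => Module.finrank ℂ
    (LinearMap.range (Matrix.toLin' (proj p ((ζ ^ a) • N)))) with hm
  have hma : ∀ a, trace (proj p ((ζ ^ a) • N)) = (m a : ℂ) := fun a =>
    trace_idem _ (proj_idem hp0 (hNa a))
  have hma' : ∀ a, (m a : ℂ) = (1 / (p : ℂ)) * ∑ j ∈ Finset.range p, (ζ ^ a) ^ j * trace (N ^ j) := by
    intro a
    rw [← hma, proj_trace]
    congr 1
    refine Finset.sum_congr rfl fun j _ => ?_
    rw [smul_pow, trace_smul, smul_eq_mul]
  have hsum : ∑ a ∈ Finset.range p, m a = d := by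
    have h1 : ∑ a ∈ Finset.range p, (m a : ℂ) = d := by
      simp only [hma']
      rw [← Finset.mul_sum, Finset.sum_comm]
      have h2 : ∀ j ∈ Finset.range p, ∑ a ∈ Finset.range p, (ζ ^ a) ^ j * trace (N ^ j)
          = if j = 0 then (p : ℂ) * trace (N ^ j) else 0 := by
        intro j hj
        rw [← Finset.sum_mul]
        have h3 := ortho hζ hu (Finset.mem_range.mp hj) hp.pos
        simp only [pow_zero, mul_one] at h3
        have h4 : ∑ a ∈ Finset.range p, (ζ ^ a) ^ j = ∑ a ∈ Finset.range p, (ζ ^ j) ^ a :=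
          Finset.sum_congr rfl fun a _ => by rw [← pow_mul, ← pow_mul, mul_comm]
        rw [h4, h3]
        split_ifs <;> simp
      rw [Finset.sum_congr rfl h2, Finset.sum_ite_eq' (Finset.range p) 0
        (fun j => (p : ℂ) * trace (N ^ j)), if_pos (Finset.mem_range.mpr hp.pos), pow_zero,
        trace_one, Fintype.card_fin]
      field_simp
    exact_mod_cast h1
  have htj : ∀ j ∈ Finset.range p, trace (N ^ j) * star (trace (N ^ j))
      = if j = 0 then (d : ℂ) ^ 2 else (fix π : ℂ) := by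
    intro j hj
    split_ifs with h0
    · subst h0
      rw [pow_zero, trace_one, Fintype.card_fin, star_natCast]; ring
    · have h1 := trace_sq hd hx (hN.pow j)
      rw [h1]
      have h2 := fix_pow_card hp hπp (Nat.pos_of_ne_zero h0) (Finset.mem_range.mp hj)
      rw [← h2]; rfl
  have hsq : p * ∑ a ∈ Finset.range p, m a ^ 2 = d ^ 2 + (p - 1) * fix π := by
    have h1 := parseval hp0 hζ hu (fun j => trace (N ^ j))
    simp only [← hma'] at h1
    rw [Finset.sum_congr rfl htj] at h1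
    have h2 : ∑ j ∈ Finset.range p, (if j = 0 then (d : ℂ) ^ 2 else (fix π : ℂ))
        = (d : ℂ) ^ 2 + ((p - 1 : ℕ) : ℂ) * fix π := by
      obtain ⟨q, rfl⟩ : ∃ q, p = q + 1 := ⟨p - 1, (Nat.succ_pred_eq_of_pos hp.pos).symm⟩
      rw [Finset.sum_range_succ']
      simp
      ring
    rw [h2] at h1
    have h3 : (p : ℂ) * ∑ a ∈ Finset.range p, (m a : ℂ) ^ 2
        = (d : ℂ) ^ 2 + ((p - 1 : ℕ) : ℂ) * fix π := by
      have h4 : ∀ a, (m a : ℂ) * star (m a : ℂ) = (m a : ℂ) ^ 2 := fun a => by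
        rw [star_natCast]; ring
      simp only [h4] at h1
      rw [h1]
      field_simp
    exact_mod_cast h3
  refine ⟨m, hsum, hsq, ?_, ?_⟩
  · have h1 := rel_bound hd hx (Q := proj p ((ζ ^ 0) • N)) (proj_idem hp0 (hNa 0))
      (proj_herm hp0 (hNa 0) (hUa 0)) (Finset.univ.filter fun i => π i = i) (by
        intro i hi
        refine proj_fix hp0 ?_
        rw [pow_zero, one_smul]
        exact hfix i (Finset.mem_filter.mp hi).2) (μ := (m 0 : ℝ)) (by rw [hma 0]; simp)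
    exact h1
  · have h1 : m 0 ≤ d := by
      rw [← hsum]
      exact Finset.single_le_sum (f := m) (fun _ _ => Nat.zero_le _) (Finset.mem_range.mpr hp.pos)
    rcases lt_or_eq_of_le h1 with h2 | h2
    · exact h2
    · exfalso
      have h3 : m 0 ^ 2 ≤ ∑ a ∈ Finset.range p, m a ^ 2 :=
        Finset.single_le_sum (f := fun a => m a ^ 2) (fun _ _ => Nat.zero_le _)
          (Finset.mem_range.mpr hp.pos)
      rw [h2] at h3
      have h4 := fix_lt hπ
      have h5 := hp.two_le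
      obtain ⟨q, rfl⟩ : ∃ q, p = q + 1 := ⟨p - 1, (Nat.succ_pred_eq_of_pos hp.pos).symm⟩
      rw [Nat.add_sub_cancel] at hsq
      have h6 : (q + 1) * d ^ 2 ≤ d ^ 2 + q * fix π := by
        rw [← hsq]; exact Nat.mul_le_mul_left _ h3
      have h7 : q * d ^ 2 ≤ q * fix π := by linarith [Nat.add_mul q 1 (d ^ 2)]
      have h8 := Nat.le_of_mul_le_mul_left h7 (by omega)
      omega

end Pool.Agent.W864.Sym
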