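import Mathlib
import Pool.Agent.W864.SymMult

set_option autoImplicit false

namespace Pool.Agent.W864.Sym

open Matrix Pool.Agent.H109R2.SIC Pool.Agent.H109R2.SymGroup
open scoped ComplexOrder

variable {d : ℕ} {x : Fin (d ^ 2) → EuclideanSpace ℂ (Fin d)}

/-- a symmetry of prime order with a fixed line, normalised. -/
theorem normal_prime (hx : IsMaxETF d x) {π : Equiv.Perm (Fin (d ^ 2))} {p : ℕ}
    (hπp : π ^ p = 1) {M : Matrix (Fin d) (Fin d) ℂ} (hM : Ind x M π) (hF : 0 < fix π) :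
    ∃ N : Matrix (Fin d) (Fin d) ℂ, Ind x N π ∧ N ^ p = 1 ∧
      ∀ j, π j = j → N *ᵥ (x j).ofLp = (x j).ofLp := by
  obtain ⟨i, hi⟩ := Finset.card_pos.mp hF
  have hi' : π i = i := (Finset.mem_filter.mp hi).2
  obtain ⟨N, hN, -, hfix⟩ := hM.normalise hx hi'
  refine ⟨N, hN, ?_, hfix⟩
  have h1 := hN.pow p
  rw [hπp] at h1
  refine h1.eq_one hx (i := i) ?_
  have : ∀ k : ℕ, N ^ k *ᵥ (x i).ofLp = (x i).ofLp := by
    intro k
    induction k with
    | zero => simp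
    | succ k ih => rw [pow_succ, ← Matrix.mulVec_mulVec, hfix i hi', ih]
  exact this p

/-- the inequality for the number of fixed lines of a symmetry of prime order. -/
theorem prime_bound (hd : 1 ≤ d) (hx : IsMaxETF d x) {π : Equiv.Perm (Fin (d ^ 2))} {p : ℕ}
    (hp : p.Prime) (hπp : π ^ p = 1) (hπ : π ≠ 1) {M : Matrix (Fin d) (Fin d) ℂ}
    (hM : Ind x M π) :
    ((p : ℝ) - 1) * fix π ≤ p * Real.sqrt (fix π) + d := by
  rcases Nat.eq_zero_or_pos (fix π) with h0 | h0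
  · rw [h0]; simp
  obtain ⟨N, hN, hNp, hfix⟩ := normal_prime hx hπp hM h0
  obtain ⟨m, hsum, hsq, hrel, hlt⟩ := mult hd hx hp hπp hπ hN hNp hfix
  obtain ⟨q, rfl⟩ : ∃ q, p = q + 1 := ⟨p - 1, (Nat.succ_pred_eq_of_pos hp.pos).symm⟩
  rw [Nat.add_sub_cancel] at hsq
  have hq1 : 1 ≤ q := by have := hp.two_le; omega
  set F := fix π with hF
  set φ := Real.sqrt (F : ℝ) with hφ
  have hφ0 : 0 ≤ φ := Real.sqrt_nonneg _
  have hφ2 : φ ^ 2 = F := Real.sq_sqrt (by positivity)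
  have hFr : (F : ℝ) < (d : ℝ) ^ 2 := by exact_mod_cast fix_lt hπ
  have hφd : φ < d := by
    have hd0 : (0 : ℝ) ≤ d := by positivity
    nlinarith
  -- sums without the index `0`
  rw [Finset.sum_range_succ'] at hsum hsq
  have hsum' : (∑ a ∈ Finset.range q, (m (a + 1) : ℝ)) = d - m 0 := by
    have : ((∑ a ∈ Finset.range q, m (a + 1) : ℕ) : ℝ) + m 0 = d := by exact_mod_cast hsum
    push_cast at this
    linarith
  have hsq' : ((q : ℝ) + 1) * ((∑ a ∈ Finset.range q, (m (a + 1) : ℝ) ^ 2) + (m 0 : ℝ) ^ 2)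
      = (d : ℝ) ^ 2 + q * F := by exact_mod_cast hsq
  have hcs : (∑ a ∈ Finset.range q, (m (a + 1) : ℝ)) ^ 2
      ≤ (q : ℝ) * ∑ a ∈ Finset.range q, (m (a + 1) : ℝ) ^ 2 := by
    have := sq_sum_le_card_mul_sum_sq (s := Finset.range q) (f := fun a => (m (a + 1) : ℝ))
    rwa [Finset.card_range] at this
  rw [hsum'] at hcs
  set S := ∑ a ∈ Finset.range q, (m (a + 1) : ℝ) ^ 2 with hS
  set μ : ℝ := (m 0 : ℝ) with hμ
  have hμd : μ < d := by rw [hμ]; exact_mod_cast hlt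
  have hqr : (1 : ℝ) ≤ q := by exact_mod_cast hq1
  have h1 : (((q : ℝ) + 1) * μ - d) ^ 2 ≤ ((q : ℝ) * φ) ^ 2 := by
    have e1 : ((q : ℝ) * φ) ^ 2 = (q : ℝ) * (q * F) := by rw [mul_pow, hφ2]; ring
    rw [e1]
    have e2 : (q : ℝ) * F = ((q : ℝ) + 1) * (S + μ ^ 2) - (d : ℝ) ^ 2 := by linarith
    rw [e2]
    have e3 : ((q : ℝ) + 1) * ((d : ℝ) - μ) ^ 2 ≤ ((q : ℝ) + 1) * (q * S) :=
      mul_le_mul_of_nonneg_left hcs (by positivity)
    nlinarith
  have h2 : ((q : ℝ) + 1) * μ - d ≤ (q : ℝ) * φ := by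
    have := abs_le_of_sq_le_sq h1 (by positivity)
    exact (le_abs_self _).trans this
  have h3 : (F : ℝ) * (d - μ + 1) ≤ d * μ := by
    have := (mul_nonneg_iff_of_pos_left (sub_pos.mpr hμd)).mp hrel
    linarith
  have h4 : ((q : ℝ) + 1) * (F * (d + 1)) ≤ (d + q * φ) * (d + F) := by
    have e1 : (F : ℝ) * (d + 1) ≤ μ * (d + F) := by nlinarith
    have e2 : ((q : ℝ) + 1) * (F * (d + 1)) ≤ ((q : ℝ) + 1) * (μ * (d + F)) :=
      mul_le_mul_of_nonneg_left e1 (by positivity)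
    have e3 : ((q : ℝ) + 1) * μ * (d + F) ≤ (d + q * φ) * (d + F) :=
      mul_le_mul_of_nonneg_right (by linarith) (by positivity)
    linarith
  have h5 : 0 ≤ (φ - d) * ((q : ℝ) * φ ^ 2 - (q + 1) * φ - d) := by
    rw [← hφ2] at h4
    nlinarith
  have h6 : (q : ℝ) * φ ^ 2 - (q + 1) * φ - d ≤ 0 := by
    by_contra hcon
    push Not at hcon
    have : (φ - d) * ((q : ℝ) * φ ^ 2 - (q + 1) * φ - d) < 0 :=
      mul_neg_of_neg_of_pos (by linarith) hcon
    linarith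
  push_cast
  rw [← hφ2]
  linarith

/-- fixed points of a power. -/
theorem fix_le_pow (π : Equiv.Perm (Fin (d ^ 2))) (k : ℕ) : fix π ≤ fix (π ^ k) := by
  refine Finset.card_le_card ?_
  intro i hi
  rw [Finset.mem_filter] at hi ⊢
  refine ⟨hi.1, ?_⟩
  have : ∀ k : ℕ, (π ^ k) i = i := by
    intro k
    induction k with
    | zero => simp
    | succ k ih => rw [pow_succ π k, Equiv.Perm.mul_apply, hi.2, ih]
  exact this k

/-- the inequality for the number of fixed lines, any symmetry. -/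
theorem order_bound (hd : 1 ≤ d) (hx : IsMaxETF d x) {π : Equiv.Perm (Fin (d ^ 2))} {p : ℕ}
    (hp : p.Prime) (hpo : p ∣ orderOf π) {M : Matrix (Fin d) (Fin d) ℂ}
    (hM : Ind x M π) :
    ((p : ℝ) - 1) * fix π ≤ p * Real.sqrt (fix π) + d := by
  have hpos : 0 < orderOf π := orderOf_pos π
  obtain ⟨n, hn⟩ := hpo
  have hn0 : n ≠ 0 := by rintro rfl; omega
  have ho : orderOf (π ^ n) = p := by
    rw [orderOf_pow_of_dvd hn0 (hn ▸ Dvd.intro_left p rfl), hn]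
    exact Nat.mul_div_cancel _ (Nat.pos_of_ne_zero hn0)
  have h1 : (π ^ n) ^ p = 1 := by rw [← ho]; exact pow_orderOf_eq_one _
  have h2 : π ^ n ≠ 1 := by
    intro h
    rw [h, orderOf_one] at ho
    exact hp.one_lt.ne ho
  have h3 := prime_bound hd hx hp h1 h2 (hM.pow n)
  have h4 := fix_le_pow π n
  have hp2 : (2 : ℝ) ≤ p := by exact_mod_cast hp.two_le
  rcases Nat.eq_zero_or_pos (fix π) with h0 | h0
  · rw [h0]; simp
  set a := Real.sqrt (fix π : ℝ) with ha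
  set b := Real.sqrt (fix (π ^ n) : ℝ) with hb
  have ha2 : a ^ 2 = fix π := Real.sq_sqrt (by positivity)
  have hb2 : b ^ 2 = fix (π ^ n) := Real.sq_sqrt (by positivity)
  have hab : a ≤ b := Real.sqrt_le_sqrt (by exact_mod_cast h4)
  have ha1 : 1 ≤ a := by
    rw [ha, Real.one_le_sqrt]
    exact_mod_cast h0
  rw [← hb2] at h3
  rw [← ha2]
  have h5 : 0 ≤ (b - a) * (((p : ℝ) - 1) * (a + b) - p) :=
    mul_nonneg (by linarith) (by nlinarith)
  nlinarith

/-- the general bound `|Tr U| ≤ 1 + √(d+1)`. -/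
theorem trace_bound (hd : 1 ≤ d) (hx : IsMaxETF d x) {π : Equiv.Perm (Fin (d ^ 2))}
    (hπ : π ≠ 1) {M : Matrix (Fin d) (Fin d) ℂ} (hM : Ind x M π) :
    Real.sqrt (fix π) ≤ 1 + Real.sqrt ((d : ℝ) + 1) := by
  have h1 : orderOf π ≠ 1 := fun h => hπ (orderOf_eq_one_iff.mp h)
  obtain ⟨p, hp, hpo⟩ := Nat.exists_prime_and_dvd h1
  have h2 := order_bound hd hx hp hpo hM
  have hp2 : (2 : ℝ) ≤ p := by exact_mod_cast hp.two_le
  set a := Real.sqrt (fix π : ℝ) with ha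
  have ha2 : a ^ 2 = fix π := Real.sq_sqrt (by positivity)
  have ha0 : 0 ≤ a := Real.sqrt_nonneg _
  rw [← ha2] at h2
  have hd0 : (0 : ℝ) ≤ d := by positivity
  have h3 : (a - 1) ^ 2 ≤ (d : ℝ) + 1 := by
    have h4 : ((p : ℝ) - 1) * (a ^ 2 - 2 * a - d) ≤ 0 := by nlinarith
    have h5 : a ^ 2 - 2 * a - d ≤ 0 := by
      by_contra h
      push Not at h
      have := mul_pos (by linarith : (0 : ℝ) < (p : ℝ) - 1) h
      linarith
    nlinarith
  have h4 := Real.abs_le_sqrt h3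
  have := le_abs_self (a - 1)
  linarith

end Pool.Agent.W864.Sym
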