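import Mathlib
import Pool.Agent.W864.SymFixed

set_option autoImplicit false

namespace Pool.Agent.W864.Sym

open Matrix Module Pool.Agent.H109R2.SIC Pool.Agent.H109R2.SymGroup

variable {d : ℕ} {x : Fin (d ^ 2) → EuclideanSpace ℂ (Fin d)}

/-- the pointwise stabiliser of `m` lines spanned by linearly independent vectors. -/
theorem stab_bound (hd : 1 ≤ d) (hx : IsMaxETF d x) (H : Subgroup (Equiv.Perm (Fin (d ^ 2))))
    (hH : ∀ π ∈ H, ∃ M, Ind x M π) {m : ℕ} (hm : 1 ≤ m) (T : Fin m → Fin (d ^ 2))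
    (hT : LinearIndependent ℂ fun i => (x (T i)).ofLp)
    (hfix : ∀ π ∈ H, ∀ i, π (T i) = T i) :
    (m : ℝ) * Nat.card H ≤ d + ((Nat.card H : ℝ) - 1) * (1 + Real.sqrt ((d : ℝ) + 1)) := by
  classical
  set i0 : Fin m := ⟨0, hm⟩ with hi0
  have hch : ∀ g : H, ∃ N : Matrix (Fin d) (Fin d) ℂ, Ind x N (g : Equiv.Perm (Fin (d ^ 2))) ∧
      ∀ j, (g : Equiv.Perm (Fin (d ^ 2))) j = j → N *ᵥ (x j).ofLp = (x j).ofLp := by
    intro g
    obtain ⟨M, hM⟩ := hH g g.2
    obtain ⟨N, hN, -, h⟩ := hM.normalise hx (hfix g g.2 i0)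
    exact ⟨N, hN, h⟩
  choose N hN hNf using hch
  have hNT : ∀ g i, N g *ᵥ (x (T i)).ofLp = (x (T i)).ofLp := fun g i =>
    hNf g _ (hfix g g.2 i)
  have hmul : ∀ g h, N (g * h) = N g * N h := by
    intro g h
    refine Ind.unique hx (hN (g * h)) ((hN g).mul (hN h)) (i := T i0) (hNT _ _) ?_
    rw [← Matrix.mulVec_mulVec, hNT, hNT]
  set E : Matrix (Fin d) (Fin d) ℂ := (1 / (Fintype.card H : ℂ)) • ∑ g : H, N g with hE
  have hc0 : (Fintype.card H : ℂ) ≠ 0 := by exact_mod_cast Fintype.card_ne_zero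
  have hgE : ∀ g, N g * E = E := by
    intro g
    rw [hE, mul_smul_comm, Finset.mul_sum]
    congr 1
    simp only [← hmul]
    exact Fintype.sum_equiv (Equiv.mulLeft g) _ _ fun h => rfl
  have hEE : E * E = E := by
    conv_lhs => enter [1]; rw [hE]
    rw [smul_mul_assoc, Finset.sum_mul]
    simp only [hgE, Finset.sum_const, Finset.card_univ]
    rw [← Nat.cast_smul_eq_nsmul ℂ, smul_smul, one_div, inv_mul_cancel₀ hc0, one_smul]
  have hEv : ∀ i, E *ᵥ (x (T i)).ofLp = (x (T i)).ofLp := by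
    intro i
    rw [hE, Matrix.smul_mulVec, Matrix.sum_mulVec]
    simp only [hNT, Finset.sum_const, Finset.card_univ]
    rw [← Nat.cast_smul_eq_nsmul ℂ, smul_smul, one_div, inv_mul_cancel₀ hc0, one_smul]
  have htr := trace_idem E hEE
  set r := finrank ℂ (LinearMap.range (Matrix.toLin' E)) with hr
  have hrm : m ≤ r := by
    have h1 : LinearIndependent ℂ (fun i : Fin m =>
        (⟨(x (T i)).ofLp, ⟨(x (T i)).ofLp, by rw [Matrix.toLin'_apply]; exact hEv i⟩⟩ :
          LinearMap.range (Matrix.toLin' E))) := by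
      apply LinearIndependent.of_comp (LinearMap.range (Matrix.toLin' E)).subtype
      exact hT
    have h2 := h1.fintype_card_le_finrank
    rwa [Fintype.card_fin] at h2
  have htr2 : trace E = (1 / (Fintype.card H : ℂ)) * ∑ g : H, trace (N g) := by
    rw [hE, trace_smul, trace_sum, smul_eq_mul]
  have hN1 : N 1 = 1 := by
    refine Ind.unique hx (hN 1) Ind.one (i := T i0) (hNT _ _) (by simp)
  have h3 : (r : ℝ) * Fintype.card H ≤ d + ((Fintype.card H : ℝ) - 1)
      * (1 + Real.sqrt ((d : ℝ) + 1)) := by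
    have h4 : (r : ℂ) * Fintype.card H = ∑ g : H, trace (N g) := by
      rw [← htr, htr2]
      field_simp
    have h5 : (r : ℝ) * Fintype.card H = ‖∑ g : H, trace (N g)‖ := by
      rw [← h4, norm_mul, Complex.norm_natCast, Complex.norm_natCast]
    rw [h5, ← Finset.add_sum_erase Finset.univ _ (Finset.mem_univ (1 : H))]
    refine (norm_add_le _ _).trans (add_le_add ?_ ?_)
    · rw [hN1, trace_one, Fintype.card_fin, Complex.norm_natCast]
    · refine (norm_sum_le _ _).trans ?_
      have h6 : ∀ g ∈ Finset.univ.erase (1 : H), ‖trace (N g)‖ ≤ 1 + Real.sqrt ((d : ℝ) + 1) := by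
        intro g hg
        have hg1 : (g : Equiv.Perm (Fin (d ^ 2))) ≠ 1 := fun h0 =>
          (Finset.ne_of_mem_erase hg) (Subtype.ext h0)
        have h7 := trace_bound hd hx hg1 (hN g)
        have h8 := norm_trace_sq hd hx (hN g)
        rwa [← h8, Real.sqrt_sq (norm_nonneg _)] at h7
      refine (Finset.sum_le_card_nsmul _ _ _ h6).trans ?_
      rw [Finset.card_erase_of_mem (Finset.mem_univ _), Finset.card_univ, nsmul_eq_mul,
        Nat.cast_sub Fintype.card_pos, Nat.cast_one]
  rw [Nat.card_eq_fintype_card]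
  have : (m : ℝ) * Fintype.card H ≤ r * Fintype.card H :=
    mul_le_mul_of_nonneg_right (by exact_mod_cast hrm) (by positivity)
  linarith

/-- the vectors of a maximal ETF span, so that `d` of them form a basis. -/
theorem exists_indep (hd : 1 ≤ d) (hx : IsMaxETF d x) {m : ℕ} (hm : m ≤ d) :
    ∃ T : Fin m → Fin (d ^ 2), LinearIndependent ℂ fun i => (x (T i)).ofLp := by
  classical
  set v : Fin (d ^ 2) → (Fin d → ℂ) := fun i => (x i).ofLp with hv
  have hspan : Submodule.span ℂ (Set.range v) = ⊤ := by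
    rw [eq_top_iff]
    intro w _
    have hdc : (d : ℂ) ≠ 0 := by exact_mod_cast (by omega : d ≠ 0)
    have h1 := congrArg (fun M => M *ᵥ w) (sum_P hx)
    simp only [Matrix.sum_mulVec, Matrix.smul_mulVec, Matrix.one_mulVec] at h1
    have h2 : w = (d : ℂ)⁻¹ • ∑ i, P x i *ᵥ w := by
      rw [h1, smul_smul, inv_mul_cancel₀ hdc, one_smul]
    rw [h2]
    refine Submodule.smul_mem _ _ (Submodule.sum_mem _ fun i _ => ?_)
    have h3 : P x i *ᵥ w = (star (v i) ⬝ᵥ w) • v i := by
      ext a
      simp only [P, Matrix.mulVec, dotProduct, Matrix.of_apply, Pi.smul_apply, smul_eq_mul,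
        Finset.sum_mul, hv, Pi.star_apply]
      refine Finset.sum_congr rfl fun b _ => by ring
    rw [h3]
    exact Submodule.smul_mem _ _ (Submodule.subset_span ⟨i, rfl⟩)
  obtain ⟨b, hb1, hb2, hb3⟩ := exists_linearIndependent ℂ (Set.range v)
  rw [hspan] at hb2
  have hbf : b.Finite := (Set.finite_range v).subset hb1
  have := hbf.fintype
  have hcard : Fintype.card b = d := by
    have h1 := finrank_span_set_eq_card (R := ℂ) (s := b) hb3
    rw [hb2, finrank_top, Module.finrank_fin_fun, Set.toFinset_card] at h1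
    exact h1.symm
  have e : Fin d ≃ b := (Fintype.equivFinOfCardEq hcard).symm
  have h4 : ∀ i : Fin d, ∃ j, v j = (e i : Fin d → ℂ) := fun i => hb1 (e i).2
  choose T hT using h4
  refine ⟨fun i => T (Fin.castLE hm i), ?_⟩
  have h5 : LinearIndependent ℂ (fun i : Fin d => v (T i)) := by
    simp only [hT]
    exact hb3.comp e e.injective
  exact h5.comp (Fin.castLE hm) (Fin.castLE_injective hm)

/-- the order of the symmetry group. -/
theorem order_le (hx : IsMaxETF d x) (G : Subgroup (Equiv.Perm (Fin (d ^ 2))))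
    (hG : ∀ π ∈ G, ∃ M, Ind x M π) {m : ℕ} (hm : Real.sqrt ((d : ℝ) + 1) + 2 ≤ m) (hmd : m ≤ d) :
    Nat.card G < d ^ (2 * m + 1) := by
  classical
  have hs0 := Real.sqrt_nonneg ((d : ℝ) + 1)
  have hm2 : 2 ≤ m := by exact_mod_cast (by linarith : (2 : ℝ) ≤ m)
  have hd : 1 ≤ d := by omega
  obtain ⟨T, hT⟩ := exists_indep hd hx hmd
  -- the stabiliser of the tuple
  set K : Subgroup G := MulAction.stabilizer G T with hK
  set H : Subgroup (Equiv.Perm (Fin (d ^ 2))) := K.map G.subtype with hH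
  have hHG : H ≤ G := by rw [hH]; exact Subgroup.map_subtype_le K
  have hHf : ∀ π ∈ H, ∀ i, π (T i) = T i := by
    intro π hπ i
    rw [hH, Subgroup.mem_map] at hπ
    obtain ⟨g, hg, rfl⟩ := hπ
    rw [hK, MulAction.mem_stabilizer_iff] at hg
    exact congrFun hg i
  have h1 := stab_bound hd hx H (fun π hπ => hG π (hHG hπ)) (by omega) T hT hHf
  have hcardH : Nat.card H = Nat.card K := by
    rw [hH, Subgroup.card_map_of_injective (Subgroup.subtype_injective G)]
  have hpos : 0 < Nat.card H := Nat.card_pos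
  have h2 : Nat.card H < d := by
    have h3 : (1 : ℝ) ≤ Nat.card H := by exact_mod_cast hpos
    have h4 : ((Nat.card H : ℝ)) * (m - (1 + Real.sqrt ((d : ℝ) + 1)))
        ≤ d - (1 + Real.sqrt ((d : ℝ) + 1)) := by linarith
    have h5 : (Nat.card H : ℝ) * 1 ≤ (Nat.card H : ℝ) * (m - (1 + Real.sqrt ((d : ℝ) + 1))) :=
      mul_le_mul_of_nonneg_left (by linarith) (by linarith)
    have h6 : (Nat.card H : ℝ) < d := by linarith
    exact_mod_cast h6
  have h3 : Nat.card G = Nat.card (MulAction.orbit G T) * Nat.card K := by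
    have h7 := Subgroup.index_mul_card (MulAction.stabilizer G T)
    rw [MulAction.index_stabilizer, ← Nat.card_coe_set_eq] at h7
    exact h7.symm
  have h4 : Nat.card (MulAction.orbit G T) ≤ d ^ (2 * m) := by
    have h5 : Nat.card (MulAction.orbit G T) ≤ Nat.card (Fin m → Fin (d ^ 2)) :=
      Nat.card_le_card_of_injective Subtype.val Subtype.val_injective
    rw [Nat.card_eq_fintype_card (α := Fin m → Fin (d ^ 2)), Fintype.card_fun, Fintype.card_fin,
      Fintype.card_fin, ← pow_mul] at h5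
    exact h5
  rw [h3, pow_succ d (2 * m), ← hcardH]
  calc Nat.card (MulAction.orbit G T) * Nat.card H ≤ d ^ (2 * m) * Nat.card H :=
        Nat.mul_le_mul_right _ h4
    _ < d ^ (2 * m) * d := Nat.mul_lt_mul_of_pos_left h2 (by positivity)

end Pool.Agent.W864.Sym
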