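import Mathlib

set_option autoImplicit false

namespace Pool.Agent.W864.Sym

/-- the arithmetic data of a symmetry of prime order `p` with `F ≥ 1` fixed lines: the eigenvalue
multiplicities. -/
structure Data (d p F : ℕ) (m : ℕ → ℕ) : Prop where
  hp : p.Prime
  hF : 1 ≤ F
  hsum : ∑ a ∈ Finset.range p, m a = d
  hsq : p * ∑ a ∈ Finset.range p, m a ^ 2 = d ^ 2 + (p - 1) * F
  hrel : F * (d - m 0 + 1) ≤ d * m 0
  hlt : m 0 < d

variable {d p F : ℕ} {m : ℕ → ℕ}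

theorem Data.split (h : Data d p F m) : ∃ (q : ℕ), p = q + 1 ∧ 1 ≤ q ∧
    ((∑ a ∈ Finset.range q, (m (a + 1) : ℤ)) = d - m 0) ∧
    (((q : ℤ) + 1) * ((∑ a ∈ Finset.range q, (m (a + 1) : ℤ) ^ 2) + (m 0 : ℤ) ^ 2)
      = (d : ℤ) ^ 2 + q * F) := by
  obtain ⟨q, rfl⟩ : ∃ q, p = q + 1 := ⟨p - 1, (Nat.succ_pred_eq_of_pos h.hp.pos).symm⟩
  have h1 := h.hsum
  have h2 := h.hsq
  rw [Nat.add_sub_cancel] at h2
  rw [Finset.sum_range_succ'] at h1 h2
  refine ⟨q, rfl, by have := h.hp.two_le; omega, ?_, ?_⟩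
  · have : ((∑ a ∈ Finset.range q, m (a + 1) : ℕ) : ℤ) + m 0 = d := by exact_mod_cast h1
    push_cast at this
    linarith
  · exact_mod_cast h2

/-- lower bounds for the sum of the squares of the multiplicities. -/
theorem Data.lower (h : Data d p F m) :
    (p : ℤ) * ((m 0 : ℤ) ^ 2 + (d - m 0)) ≤ (d : ℤ) ^ 2 + (p - 1) * F ∧
    (p : ℤ) * ((m 0 : ℤ) ^ 2 + 3 * (d - m 0) - 2 * (p - 1)) ≤ (d : ℤ) ^ 2 + (p - 1) * F := by
  obtain ⟨q, rfl, hq, h1, h2⟩ := h.split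
  have h3 : (∑ a ∈ Finset.range q, (m (a + 1) : ℤ)) ≤ ∑ a ∈ Finset.range q, (m (a + 1) : ℤ) ^ 2 := by
    refine Finset.sum_le_sum fun a _ => ?_
    rcases Nat.eq_zero_or_pos (m (a + 1)) with h0 | h0
    · simp [h0]
    · have : (1 : ℤ) ≤ m (a + 1) := by exact_mod_cast h0
      nlinarith
  have h4 : ∑ a ∈ Finset.range q, (3 * (m (a + 1) : ℤ) - 2)
      ≤ ∑ a ∈ Finset.range q, (m (a + 1) : ℤ) ^ 2 := by
    refine Finset.sum_le_sum fun a _ => ?_
    have : (0 : ℤ) ≤ ((m (a + 1) : ℤ) - 1) * ((m (a + 1) : ℤ) - 2) := by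
      rcases Nat.lt_or_ge (m (a + 1)) 2 with h0 | h0
      · have h5 : (m (a + 1) : ℤ) ≤ 1 := by exact_mod_cast (by omega : m (a + 1) ≤ 1)
        nlinarith
      · have h5 : (2 : ℤ) ≤ m (a + 1) := by exact_mod_cast h0
        nlinarith
    linarith
  rw [Finset.sum_sub_distrib, ← Finset.mul_sum, Finset.sum_const, Finset.card_range,
    nsmul_eq_mul] at h4
  rw [h1] at h3 h4
  have hq0 : (0 : ℤ) ≤ (q : ℤ) + 1 := by positivity
  push_cast
  constructor
  · have := mul_le_mul_of_nonneg_left (a := (q : ℤ) + 1)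
      (by linarith : ((m 0 : ℤ) ^ 2 + (d - m 0))
        ≤ (∑ a ∈ Finset.range q, (m (a + 1) : ℤ) ^ 2) + (m 0 : ℤ) ^ 2) hq0
    linarith
  · have := mul_le_mul_of_nonneg_left (a := (q : ℤ) + 1)
      (by linarith : ((m 0 : ℤ) ^ 2 + 3 * (d - m 0) - 2 * q)
        ≤ (∑ a ∈ Finset.range q, (m (a + 1) : ℤ) ^ 2) + (m 0 : ℤ) ^ 2) hq0
    linarith

theorem Data.rel (h : Data d p F m) : (F : ℤ) * (d - m 0 + 1) ≤ d * m 0 := by
  have h1 := h.hrel
  have h2 := h.hlt
  zify [h2.le] at h1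
  exact h1

theorem Data.le (h : Data d p F m) : p ≤ d + 1 := by
  by_contra hcon
  push Not at hcon
  have h1 := h.lower.1
  have h2 := h.rel
  have hF : (1 : ℤ) ≤ F := by exact_mod_cast h.hF
  obtain ⟨c, hc⟩ : ∃ c : ℕ, d = m 0 + (c + 1) := ⟨d - m 0 - 1, by have := h.hlt; omega⟩
  have hμ1 : 1 ≤ m 0 := by
    by_contra h0
    have h0' : m 0 = 0 := by omega
    rw [h0'] at h2
    have : (0 : ℤ) ≤ d := by positivity
    push_cast at h2
    nlinarith
  obtain ⟨n, hn⟩ : ∃ n : ℕ, m 0 = n + 1 := ⟨m 0 - 1, by omega⟩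
  obtain ⟨k, hk⟩ : ∃ k : ℕ, p = d + 2 + k := ⟨p - (d + 2), by omega⟩
  rw [hn] at hc h1 h2
  rw [hk, hc] at h1
  rw [hc] at h2
  push_cast at h1 h2
  have e1 : ((n : ℤ) + 1 + (c + 1)) - (n + 1) + 1 = c + 2 := by ring
  rw [e1] at h2
  have hn0 : (0 : ℤ) ≤ n := by positivity
  have hc0 : (0 : ℤ) ≤ c := by positivity
  have hk0 : (0 : ℤ) ≤ k := by positivity
  -- multiply `h1` by `c + 2`
  have h3 := mul_le_mul_of_nonneg_right h1 (by positivity : (0 : ℤ) ≤ (c : ℤ) + 2)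
  have h4 : ((n : ℤ) + 1 + (c + 1) + 2 + k - 1) * (F * (c + 2))
      ≤ ((n : ℤ) + 1 + (c + 1) + 2 + k - 1) * ((n + 1 + (c + 1)) * (n + 1)) :=
    mul_le_mul_of_nonneg_left h2 (by linarith)
  have h5 : (0 : ℤ) < (((n : ℤ) + 1 + (c + 1) + 2 + k)
      * ((n + 1) ^ 2 + (n + 1 + (c + 1) - (n + 1)))
      - (n + 1 + (c + 1)) ^ 2) * (c + 2)
      - ((n : ℤ) + 1 + (c + 1) + 2 + k - 1) * ((n + 1 + (c + 1)) * (n + 1)) := by
    ring_nf
    positivity
  linarith

/-- `p ∣ d² - F`. -/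
theorem Data.dvd (h : Data d p F m) : (p : ℤ) ∣ (d : ℤ) ^ 2 - F := by
  obtain ⟨q, rfl, hq, -, h2⟩ := h.split
  refine ⟨(∑ a ∈ Finset.range q, (m (a + 1) : ℤ) ^ 2) + (m 0 : ℤ) ^ 2 - F, ?_⟩
  push_cast
  linear_combination -h2

/-- for `p > d/2` and `d ≥ 12` there are at most four fixed lines. -/
theorem Data.F_le_four (_ : Data d p F m) (hd : 12 ≤ d) (hp : d < 2 * p)
    (hb : ((p : ℝ) - 1) * F ≤ p * Real.sqrt F + d) : F ≤ 4 := by
  by_contra hcon
  push Not at hcon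
  have h5 : (5 : ℝ) ≤ F := by exact_mod_cast hcon
  set φ := Real.sqrt (F : ℝ) with hφ
  have hφ2 : φ ^ 2 = F := Real.sq_sqrt (by positivity)
  have hφ0 : 0 ≤ φ := Real.sqrt_nonneg _
  have hφ3 : (2.236 : ℝ) ≤ φ := by
    by_contra h6
    push Not at h6
    nlinarith
  have hp7 : (7 : ℝ) ≤ p := by exact_mod_cast (by omega : 7 ≤ p)
  have hdp : (d : ℝ) < 2 * p := by exact_mod_cast hp
  rw [← hφ2] at hb
  have h6 : ((p : ℝ) - 1) * φ ^ 2 < p * (φ + 2) := by linarith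
  have h7 : (6 / 7 : ℝ) * φ ^ 2 < φ + 2 := by
    have : (p : ℝ) * ((6 / 7 : ℝ) * φ ^ 2) < p * (φ + 2) := by nlinarith [sq_nonneg φ]
    exact lt_of_mul_lt_mul_left this (by linarith)
  nlinarith

/-- for `p > d/2` and `d ≥ 12`, `p ∤ d`, there is exactly one fixed line. -/
theorem Data.F_eq_one (h : Data d p F m) (hd : 12 ≤ d) (hp : d < 2 * p) (hpd : ¬ p ∣ d)
    (hb : ((p : ℝ) - 1) * F ≤ p * Real.sqrt F + d) : F = 1 := by
  have h4 := h.F_le_four hd hp hb
  have h1 := h.hF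
  have hle := h.le
  have hrel := h.rel
  obtain ⟨hl1, hl2⟩ := h.lower
  have hdvd := h.dvd
  have hlt := h.hlt
  have hd' : (12 : ℤ) ≤ d := by exact_mod_cast hd
  have hp' : (d : ℤ) < 2 * p := by exact_mod_cast hp
  have hle' : (p : ℤ) ≤ d + 1 := by exact_mod_cast hle
  have hμ0 : (0 : ℤ) ≤ m 0 := by positivity
  have hμd : (m 0 : ℤ) < d := by exact_mod_cast hlt
  obtain ⟨t, ht⟩ : ∃ t : ℤ, (d : ℤ) = p + t := ⟨d - p, by ring⟩
  have ht1 : -1 ≤ t := by linarith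
  have ht0 : t ≠ 0 := by
    rintro rfl
    apply hpd
    have : d = p := by exact_mod_cast (by linarith : (d : ℤ) = p)
    rw [this]
  have htp : t < p := by linarith
  have hp7 : (7 : ℤ) ≤ p := by omega
  have hdvd' : (p : ℤ) ∣ t ^ 2 - F := by
    have : t ^ 2 - F = ((d : ℤ) ^ 2 - F) - p * (p + 2 * t) := by rw [ht]; ring
    rw [this]
    exact dvd_sub hdvd (dvd_mul_right _ _)
  set μ : ℤ := (m 0 : ℤ) with hμ
  have hcase : F = 1 ∨ F = 2 ∨ F = 3 ∨ F = 4 := by omega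
  rcases hcase with hF | hF | hF | hF
  · exact hF
  · exfalso
    subst hF
    push_cast at hrel hl1 hl2 hdvd'
    have hμ2 : 2 ≤ μ := by
      by_contra hc
      push Not at hc
      have : μ ≤ 1 := by omega
      nlinarith
    -- case `t = -1`
    rcases lt_or_ge t 1 with ht' | ht'
    · have htm : t = -1 := by omega
      have hpt : (p : ℤ) = d + 1 := by linarith
      rw [hpt] at hl1
      nlinarith
    · have e1 : (p - t) * t ≤ 2 * (p : ℤ) - 2 := by
        have e2 : (0 : ℤ) ≤ (μ - 1) * (μ - 2) := mul_nonneg (by linarith) (by linarith)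
        have e4 : μ ^ 2 - 3 * μ + 2 = (μ - 1) * (μ - 2) := by ring
        have e3 : (p : ℤ) * (3 * d - 2 * p) ≤ p * (μ ^ 2 + 3 * (d - μ) - 2 * (p - 1)) :=
          mul_le_mul_of_nonneg_left (by linarith) (by linarith)
        rw [ht] at e3 hl2
        nlinarith
      obtain ⟨k, hk⟩ := hdvd'
      have ht3 : 3 ≤ t := by
        by_contra hc
        push Not at hc
        have : t = 1 ∨ t = 2 := by omega
        rcases this with rfl | rfl
        · have : (p : ℤ) ∣ 1 := ⟨-k, by linarith⟩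
          have := Int.le_of_dvd one_pos this
          linarith
        · have : (p : ℤ) ∣ 2 := ⟨k, by linarith⟩
          have := Int.le_of_dvd two_pos this
          linarith
      have hk1 : t - 2 ≤ k := by
        by_contra hc
        push Not at hc
        nlinarith
      have hk2 : k ≤ t - 1 := by
        by_contra hc
        push Not at hc
        nlinarith
      have : k = t - 1 ∨ k = t - 2 := by omega
      rcases this with hk' | hk'
      · have : (t - 1) ∣ 1 := ⟨t + 1 - p, by rw [hk'] at hk; linear_combination -hk⟩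
        have := Int.le_of_dvd one_pos this
        linarith
      · have h6 : (t - 2) ∣ 2 := ⟨p - t - 2, by rw [hk'] at hk; linear_combination hk⟩
        have h7 := Int.le_of_dvd two_pos h6
        have : t = 3 ∨ t = 4 := by omega
        rcases this with rfl | rfl
        · rw [hk'] at hk
          linarith
        · rw [hk'] at hk
          linarith
  · exfalso
    subst hF
    push_cast at hrel hl1 hl2 hdvd'
    have hμ3 : 3 ≤ μ := by
      by_contra hc
      push Not at hc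
      have : μ ≤ 2 := by omega
      nlinarith
    rcases lt_or_ge t 1 with ht' | ht'
    · have htm : t = -1 := by omega
      have hpt : (p : ℤ) = d + 1 := by linarith
      rw [hpt] at hl1
      nlinarith
    · have e1 : (p - t) * t ≤ (p : ℤ) - 3 := by
        have e2 : (0 : ℤ) ≤ μ * (μ - 3) := mul_nonneg (by linarith) (by linarith)
        have e4 : μ ^ 2 - 3 * μ = μ * (μ - 3) := by ring
        have e3 : (p : ℤ) * (3 * d - 2 * p + 2) ≤ p * (μ ^ 2 + 3 * (d - μ) - 2 * (p - 1)) :=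
          mul_le_mul_of_nonneg_left (by linarith) (by linarith)
        rw [ht] at e3 hl2
        nlinarith
      nlinarith
  · exfalso
    subst hF
    push_cast at hrel hl1 hl2 hdvd'
    have hμ4 : 4 ≤ μ := by
      by_contra hc
      push Not at hc
      have : μ ≤ 3 := by omega
      nlinarith
    have e2 : (4 : ℤ) ≤ μ * (μ - 3) := by nlinarith
    have e4 : μ ^ 2 - 3 * μ = μ * (μ - 3) := by ring
    have e3 : (p : ℤ) * (3 * d - 2 * p + 6) ≤ p * (μ ^ 2 + 3 * (d - μ) - 2 * (p - 1)) :=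
      mul_le_mul_of_nonneg_left (by linarith) (by linarith)
    rw [ht] at e3 hl2
    rcases lt_or_ge t 1 with ht' | ht'
    · have htm : t = -1 := by omega
      subst htm
      linarith
    · have e5 : (t + 1) * t ≤ p * t := mul_le_mul_of_nonneg_right (by omega) (by linarith)
      linarith

/-- for large `p` the number of fixed lines is small compared with `p`. -/
theorem four_sq_le (hp20 : 20 ≤ p) (hpd : 64 * d ^ 2 ≤ p ^ 3)
    (hb : ((p : ℝ) - 1) * F ≤ p * Real.sqrt F + d) : 4 * F ^ 2 ≤ p := by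
  by_contra hcon
  push Not at hcon
  set φ := Real.sqrt (F : ℝ) with hφ
  have hφ2 : φ ^ 2 = F := Real.sq_sqrt (by positivity)
  have hφ0 : 0 ≤ φ := Real.sqrt_nonneg _
  set r := Real.sqrt (p : ℝ) with hr
  have hr2 : r ^ 2 = p := Real.sq_sqrt (by positivity)
  have hr0 : 0 ≤ r := Real.sqrt_nonneg _
  set u := Real.sqrt (r / 2) with hu
  have hu2 : u ^ 2 = r / 2 := Real.sq_sqrt (by positivity)
  have hu0 : 0 ≤ u := Real.sqrt_nonneg _
  have hu4 : u ^ 4 = p / 4 := by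
    have : u ^ 4 = (u ^ 2) ^ 2 := by ring
    rw [this, hu2, div_pow, hr2]; norm_num
  have hp20' : (20 : ℝ) ≤ p := by exact_mod_cast hp20
  have hu4' : 5 ≤ u ^ 4 := by rw [hu4]; linarith
  have hu1 : (1.49 : ℝ) ≤ u := by
    by_contra h
    push Not at h
    have : u ^ 4 < (1.49 : ℝ) ^ 4 := pow_lt_pow_left₀ h hu0 (by norm_num)
    norm_num at this
    linarith
  have hd6 : (d : ℝ) ≤ u ^ 6 := by
    have h1 : (64 : ℝ) * (d : ℝ) ^ 2 ≤ (p : ℝ) ^ 3 := by exact_mod_cast hpd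
    have h2 : (d : ℝ) ^ 2 ≤ (u ^ 6) ^ 2 := by
      have : (u ^ 6) ^ 2 = (u ^ 4) ^ 3 := by ring
      rw [this, hu4]
      have : ((p : ℝ) / 4) ^ 3 = p ^ 3 / 64 := by ring
      rw [this]
      linarith
    have := abs_le_of_sq_le_sq h2 (by positivity)
    exact (le_abs_self _).trans this
  have hφu : u < φ := by
    have h1 : (p : ℝ) < 4 * (F : ℝ) ^ 2 := by exact_mod_cast hcon
    have h2 : u ^ 4 < φ ^ 4 := by
      have : φ ^ 4 = (φ ^ 2) ^ 2 := by ring
      rw [this, hφ2, hu4]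
      linarith
    exact lt_of_pow_lt_pow_left₀ 4 hφ0 h2
  rw [← hφ2] at hb
  have hp4 : (p : ℝ) = 4 * u ^ 4 := by rw [hu4]; ring
  rw [hp4] at hb
  -- `(4u⁴-1)φ² ≤ 4u⁴φ + u⁶`
  have h1 : (4 * u ^ 4 - 1) * φ ^ 2 ≤ 4 * u ^ 4 * φ + u ^ 6 := by linarith
  have h2 : 0 ≤ (φ - u) * ((4 * u ^ 4 - 1) * (φ + u) - 4 * u ^ 4) := by
    refine mul_nonneg (by linarith) ?_
    have : (4 * u ^ 4 - 1) * 2 ≤ (4 * u ^ 4 - 1) * (φ + u) :=
      mul_le_mul_of_nonneg_left (by linarith) (by linarith)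
    linarith
  have h3 : 0 < u ^ 2 * (3 * u ^ 4 - 4 * u ^ 3 - 1) := by
    refine mul_pos (by positivity) ?_
    have h4 : (1.49 : ℝ) * u ^ 3 ≤ u ^ 4 := by
      have : u ^ 4 = u * u ^ 3 := by ring
      rw [this]
      exact mul_le_mul_of_nonneg_right hu1 (by positivity)
    nlinarith [pow_pos (by linarith : (0 : ℝ) < u) 3]
  nlinarith

/-- for large `p` the number of fixed lines is a square `f²` with `d ≡ ± f (mod p)`. -/
theorem Data.square (h : Data d p F m) (hF : 4 * F ^ 2 ≤ p) :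
    ∃ f : ℕ, F = f ^ 2 ∧ ((p : ℤ) ∣ (d : ℤ) - f ∨ (p : ℤ) ∣ (d : ℤ) + f) := by
  have hp0 : (0 : ℤ) < p := by exact_mod_cast h.hp.pos
  obtain ⟨q, t, ht, ht1, ht2⟩ : ∃ q t : ℤ, (d : ℤ) = q * p + t ∧ 2 * t ≤ p ∧ -(p : ℤ) ≤ 2 * t := by
    have h1 := Int.emod_add_mul_ediv (d : ℤ) p
    have h2 := Int.emod_nonneg (d : ℤ) hp0.ne'
    have h3 := Int.emod_lt_of_pos (d : ℤ) hp0
    rcases le_or_gt (2 * ((d : ℤ) % p)) p with h4 | h4
    · exact ⟨(d : ℤ) / p, (d : ℤ) % p, by linarith, h4, by linarith⟩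
    · exact ⟨(d : ℤ) / p + 1, (d : ℤ) % p - p, by linarith, by linarith, by linarith⟩
  have hs : ∑ a ∈ Finset.range p, (m a : ℤ) = d := by exact_mod_cast h.hsum
  have hs2 : (p : ℤ) * ∑ a ∈ Finset.range p, (m a : ℤ) ^ 2 = (d : ℤ) ^ 2 + (p - 1) * F := by
    have h1 := h.hsq
    have h2 := h.hp.pos
    zify [h2] at h1
    exact h1
  have e1 : ∑ a ∈ Finset.range p, ((m a : ℤ) - q) = t := by
    rw [Finset.sum_sub_distrib, hs, Finset.sum_const, Finset.card_range, nsmul_eq_mul, ht]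
    ring
  have e2 : (p : ℤ) * ∑ a ∈ Finset.range p, ((m a : ℤ) - q) ^ 2 = t ^ 2 + (p - 1) * F := by
    have e3 : ∀ a, ((m a : ℤ) - q) ^ 2 = (m a : ℤ) ^ 2 - 2 * q * m a + q ^ 2 := fun a => by ring
    simp only [e3]
    rw [Finset.sum_add_distrib, Finset.sum_sub_distrib, ← Finset.mul_sum, hs, Finset.sum_const,
      Finset.card_range, nsmul_eq_mul]
    have : (p : ℤ) * (∑ i ∈ Finset.range p, (m i : ℤ) ^ 2 - 2 * q * d + p * q ^ 2)
      = (p : ℤ) * ∑ i ∈ Finset.range p, (m i : ℤ) ^ 2 - 2 * q * p * d + p ^ 2 * q ^ 2 := by ring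
    rw [this, hs2, ht]
    ring
  have e4 : |t| ≤ ∑ a ∈ Finset.range p, ((m a : ℤ) - q) ^ 2 := by
    rw [← e1]
    refine (Finset.abs_sum_le_sum_abs _ _).trans (Finset.sum_le_sum fun a _ => ?_)
    rcases eq_or_ne ((m a : ℤ) - q) 0 with h0 | h0
    · rw [h0]; simp
    · have h1 : 1 ≤ |(m a : ℤ) - q| := Int.one_le_abs h0
      rw [← sq_abs]
      nlinarith
  have hF1 : (1 : ℤ) ≤ F := by exact_mod_cast h.hF
  have hF4 : 4 * (F : ℤ) ^ 2 ≤ p := by exact_mod_cast hF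
  have e5 : (p : ℤ) * |t| ≤ t ^ 2 + (p - 1) * F := by
    rw [← e2]; exact mul_le_mul_of_nonneg_left e4 hp0.le
  have ht0 : 0 ≤ |t| := abs_nonneg t
  have ht3 : 2 * |t| ≤ p := by
    rcases abs_cases t with ⟨h1, -⟩ | ⟨h1, -⟩ <;> rw [h1] <;> linarith
  have htt : |t| ^ 2 = t ^ 2 := sq_abs t
  have e6 : |t| < 2 * F := by
    by_contra hc
    push Not at hc
    nlinarith
  have e7 : t ^ 2 < p := by
    rw [← htt]
    nlinarith
  have e8 : (p : ℤ) ∣ t ^ 2 - F := by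
    refine ⟨(∑ a ∈ Finset.range p, ((m a : ℤ) - q) ^ 2) - F, ?_⟩
    linear_combination -e2
  have e9 : t ^ 2 - F = 0 := by
    obtain ⟨k, hk⟩ := e8
    have hk1 : k < 1 := by
      by_contra hc
      push Not at hc
      nlinarith
    have hk2 : -1 < k := by
      by_contra hc
      push Not at hc
      nlinarith [sq_nonneg t]
    have : k = 0 := by omega
    rw [hk, this, mul_zero]
  refine ⟨t.natAbs, ?_, ?_⟩
  · have : (F : ℤ) = (t.natAbs : ℤ) ^ 2 := by
      rw [Int.natCast_natAbs, sq_abs]; linarith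
    exact_mod_cast this
  · rcases abs_cases t with ⟨h1, -⟩ | ⟨h1, -⟩
    · left
      rw [Int.natCast_natAbs, h1, ht]
      exact ⟨q, by ring⟩
    · right
      rw [Int.natCast_natAbs, h1, ht]
      exact ⟨q, by ring⟩

end Pool.Agent.W864.Sym
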