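import Mathlib
import Pool.Agent.W864.SymFixed
import Pool.Agent.W864.SymArith

set_option autoImplicit false

namespace Pool.Agent.W864.Sym

open Matrix Pool.Agent.H109R2.SIC Pool.Agent.H109R2.SymGroup

variable {d : ℕ} {x : Fin (d ^ 2) → EuclideanSpace ℂ (Fin d)}

theorem data_of (hd : 1 ≤ d) (hx : IsMaxETF d x) {π : Equiv.Perm (Fin (d ^ 2))} {p : ℕ}
    (hp : p.Prime) (hπp : π ^ p = 1) (hπ : π ≠ 1) {M : Matrix (Fin d) (Fin d) ℂ}
    (hM : Ind x M π) (hF : 0 < fix π) : ∃ m, Data d p (fix π) m := by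
  obtain ⟨N, hN, hNp, hfix⟩ := normal_prime hx hπp hM hF
  obtain ⟨m, hsum, hsq, hrel, hlt⟩ := mult hd hx hp hπp hπ hN hNp hfix
  refine ⟨m, hp, hF, hsum, hsq, ?_, hlt⟩
  have hμd : (m 0 : ℝ) < d := by exact_mod_cast hlt
  have h3 := (mul_nonneg_iff_of_pos_left (sub_pos.mpr hμd)).mp hrel
  have h4 : ((fix π * (d - m 0 + 1) : ℕ) : ℝ) ≤ ((d * m 0 : ℕ) : ℝ) := by
    push_cast [Nat.cast_sub hlt.le]
    linarith
  exact_mod_cast h4

/-- the number of fixed lines modulo `p`. -/
theorem fix_mod {π : Equiv.Perm (Fin (d ^ 2))} {p : ℕ} (hp : p.Prime) (hπp : π ^ p = 1) :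
    fix π ≡ d ^ 2 [MOD p] := by
  have : Fact p.Prime := ⟨hp⟩
  have h1 := Equiv.Perm.card_compl_support_modEq (p := p) (n := 1) (σ := π) (by simpa using hπp)
  rw [Fintype.card_fin] at h1
  have h2 : π.supportᶜ = Finset.univ.filter fun i => π i = i := by
    ext i
    simp
  rw [h2] at h1
  exact h1

theorem dvd_of_fix_zero {π : Equiv.Perm (Fin (d ^ 2))} {p : ℕ} (hp : p.Prime) (hπp : π ^ p = 1)
    (h0 : fix π = 0) : p ∣ d := by
  have h1 := fix_mod hp hπp
  rw [h0] at h1
  exact hp.dvd_of_dvd_pow ((Nat.modEq_zero_iff_dvd).mp h1.symm)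

/-- a prime order is at most `d + 1`. -/
theorem prime_le (hd : 1 ≤ d) (hx : IsMaxETF d x) {π : Equiv.Perm (Fin (d ^ 2))} {p : ℕ}
    (hp : p.Prime) (hπp : π ^ p = 1) (hπ : π ≠ 1) {M : Matrix (Fin d) (Fin d) ℂ}
    (hM : Ind x M π) : p ≤ d + 1 := by
  rcases Nat.eq_zero_or_pos (fix π) with h0 | h0
  · have := Nat.le_of_dvd hd (dvd_of_fix_zero hp hπp h0)
    omega
  · obtain ⟨m, hm⟩ := data_of hd hx hp hπp hπ hM h0
    exact hm.le

/-- for `p > d/2`, `p ∤ d`, `d ≥ 12`: exactly one fixed line. -/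
theorem prime_one (hx : IsMaxETF d x) {π : Equiv.Perm (Fin (d ^ 2))} {p : ℕ}
    (hp : p.Prime) (hπp : π ^ p = 1) (hπ : π ≠ 1) {M : Matrix (Fin d) (Fin d) ℂ}
    (hM : Ind x M π) (hd : 12 ≤ d) (hdp : d < 2 * p) (hpd : ¬ p ∣ d) : fix π = 1 := by
  rcases Nat.eq_zero_or_pos (fix π) with h0 | h0
  · exact absurd (dvd_of_fix_zero hp hπp h0) hpd
  · obtain ⟨m, hm⟩ := data_of (by omega) hx hp hπp hπ hM h0
    exact hm.F_eq_one hd hdp hpd (prime_bound (by omega) hx hp hπp hπ hM)

/-- for `p = d ≥ 12`: no fixed line. -/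
theorem prime_zero (hx : IsMaxETF d x) {π : Equiv.Perm (Fin (d ^ 2))} {p : ℕ}
    (hp : p.Prime) (hπp : π ^ p = 1) (hπ : π ≠ 1) {M : Matrix (Fin d) (Fin d) ℂ}
    (hM : Ind x M π) (hd : 12 ≤ d) (hpd : p = d) : fix π = 0 := by
  by_contra h0
  have h1 := fix_mod hp hπp
  have h2 : p ∣ fix π := by
    have : d ^ 2 ≡ 0 [MOD p] := by
      rw [hpd]
      exact (Nat.modEq_zero_iff_dvd).mpr (Dvd.intro_left (d ^ 1) (by ring))
    exact (Nat.modEq_zero_iff_dvd).mp (h1.trans this)
  have h3 := Nat.le_of_dvd (Nat.pos_of_ne_zero h0) h2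
  have h4 := prime_bound (by omega) hx hp hπp hπ hM
  rw [hpd] at h3 h4
  set φ := Real.sqrt (fix π : ℝ) with hφ
  have hφ2 : φ ^ 2 = fix π := Real.sq_sqrt (by positivity)
  have hφ0 : 0 ≤ φ := Real.sqrt_nonneg _
  have hd' : (12 : ℝ) ≤ d := by exact_mod_cast hd
  have h5 : (d : ℝ) ≤ φ ^ 2 := by rw [hφ2]; exact_mod_cast h3
  have hφ3 : 3 ≤ φ := by
    by_contra h
    push Not at h
    nlinarith
  rw [← hφ2] at h4
  -- `(d-1) φ² ≤ d φ + d`
  have h6 : ((d : ℝ) - 1) * φ ^ 2 ≤ d * (φ + 1) := by linarith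
  have h7 : (φ ^ 2 : ℝ) * 11 ≤ 12 * (φ + 1) := by
    have : (d : ℝ) * (φ ^ 2 * 11) ≤ d * (12 * (φ + 1)) := by nlinarith [sq_nonneg φ]
    exact le_of_mul_le_mul_left this (by linarith)
  nlinarith

theorem fix_one : fix (1 : Equiv.Perm (Fin (d ^ 2))) = d ^ 2 := by
  simp [fix]

/-- orbit counting. -/
theorem burnside (P : Subgroup (Equiv.Perm (Fin (d ^ 2)))) (c : ℕ)
    (h : ∀ g ∈ P, g ≠ 1 → fix g = c) : Nat.card P ∣ d ^ 2 + (Nat.card P - 1) * c := by
  classical
  have h1 := MulAction.sum_card_fixedBy_eq_card_orbits_mul_card_group P (Fin (d ^ 2))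
  have h2 : ∀ g : P, Fintype.card (MulAction.fixedBy (Fin (d ^ 2)) g) = fix (g : Equiv.Perm (Fin (d ^ 2))) := by
    intro g
    rw [Fintype.card_subtype]
    rfl
  simp only [h2] at h1
  have h3 : ∑ g : P, fix (g : Equiv.Perm (Fin (d ^ 2))) = d ^ 2 + (Fintype.card P - 1) * c := by
    rw [← Finset.add_sum_erase Finset.univ _ (Finset.mem_univ (1 : P))]
    congr 1
    · exact fix_one
    · rw [Finset.sum_congr rfl (g := fun _ => c)]
      · rw [Finset.sum_const, Finset.card_erase_of_mem (Finset.mem_univ _), Finset.card_univ,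
          smul_eq_mul]
      · intro g hg
        refine h g g.2 fun h0 => ?_
        exact (Finset.ne_of_mem_erase hg) (Subtype.ext h0)
  rw [h3] at h1
  rw [Nat.card_eq_fintype_card, h1]
  exact Dvd.intro_left _ rfl

/-- In a `p`-group of symmetries all of whose elements of order `p` have `c` fixed lines... -/
theorem pgroup_fix {P : Subgroup (Equiv.Perm (Fin (d ^ 2)))} {p k : ℕ} (hp : p.Prime)
    (hP : Nat.card P = p ^ k) (c : ℕ)
    (h : ∀ g ∈ P, g ^ p = 1 → g ≠ 1 → fix g = c) : ∀ g ∈ P, g ≠ 1 → fix g ≤ c := by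
  have : Fact p.Prime := ⟨hp⟩
  intro g hg hg1
  have h1 : orderOf g ∣ p ^ k := by
    have : orderOf (⟨g, hg⟩ : P) ∣ Nat.card P := orderOf_dvd_natCard _
    rw [hP] at this
    rwa [Subgroup.orderOf_mk] at this
  obtain ⟨j, -, hj⟩ := (Nat.dvd_prime_pow hp).mp h1
  have hj0 : j ≠ 0 := by
    rintro rfl
    rw [pow_zero] at hj
    exact hg1 (orderOf_eq_one_iff.mp hj)
  obtain ⟨i, rfl⟩ := Nat.exists_eq_succ_of_ne_zero hj0
  refine (fix_le_pow g (p ^ i)).trans (h _ (P.pow_mem hg _) ?_ ?_).le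
  · rw [← pow_mul, ← pow_succ, ← hj]
    exact pow_orderOf_eq_one g
  · intro h0
    have := orderOf_dvd_of_pow_eq_one h0
    rw [hj, Nat.pow_dvd_pow_iff_le_right hp.one_lt] at this
    omega

/-- the structure of the large Sylow subgroups. -/
theorem large (hx : IsMaxETF d x) (G : Subgroup (Equiv.Perm (Fin (d ^ 2))))
    (hG : ∀ π ∈ G, ∃ M, Ind x M π) {p : ℕ} (hp : p.Prime) (hpG : p ∣ Nat.card G)
    (hd : 12 ≤ d) (hdp : d < 2 * p) :
    (p = d ∨ ((p = d - 1 ∨ p = d + 1 ∨ 2 * p = d + 1) ∧ ¬ p ^ 2 ∣ Nat.card G)) ∧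
      ¬ p ^ 3 ∣ Nat.card G := by
  have : Fact p.Prime := ⟨hp⟩
  by_cases hpd : p ∣ d
  · have hpe : p = d := by
      obtain ⟨c, hc⟩ := hpd
      have : c < 2 := by
        by_contra h
        push Not at h
        nlinarith [hp.pos]
      interval_cases c
      · omega
      · omega
    refine ⟨Or.inl hpe, fun h3 => ?_⟩
    obtain ⟨K, hK⟩ := Sylow.exists_subgroup_card_pow_prime (G := G) p h3
    set P : Subgroup (Equiv.Perm (Fin (d ^ 2))) := K.map G.subtype with hPdef
    have hP : Nat.card P = p ^ 3 := by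
      rw [hPdef, Subgroup.card_map_of_injective (Subgroup.subtype_injective G), hK]
    have hPG : P ≤ G := by
      rw [hPdef]; exact Subgroup.map_subtype_le K
    have h4 := pgroup_fix hp hP 0 (fun g hg hgp hg1 => by
      obtain ⟨M, hM⟩ := hG g (hPG hg)
      exact prime_zero hx hp hgp hg1 hM hd hpe)
    have h5 := burnside P 0 (fun g hg hg1 => Nat.le_zero.mp (h4 g hg hg1))
    rw [hP, mul_zero, add_zero, ← hpe, Nat.pow_dvd_pow_iff_le_right hp.one_lt] at h5
    omega
  · have hlist : p = d - 1 ∨ p = d + 1 ∨ 2 * p = d + 1 := by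
      obtain ⟨g, hg⟩ := exists_prime_orderOf_dvd_card' (G := G) p hpG
      obtain ⟨M, hM⟩ := hG g g.2
      have hgo : orderOf (g : Equiv.Perm (Fin (d ^ 2))) = p := by rw [Subgroup.orderOf_coe, hg]
      have hgp : (g : Equiv.Perm (Fin (d ^ 2))) ^ p = 1 := by
        rw [← hgo]; exact pow_orderOf_eq_one _
      have hg1 : (g : Equiv.Perm (Fin (d ^ 2))) ≠ 1 := by
        intro h0
        rw [h0, orderOf_one] at hgo
        exact hp.one_lt.ne hgo
      have h1 := prime_one hx hp hgp hg1 hM hd hdp hpd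
      have h2 := fix_mod hp hgp
      have h3 := prime_le (by omega) hx hp hgp hg1 hM
      rw [h1] at h2
      have h4 : p ∣ d ^ 2 - 1 := (Nat.modEq_iff_dvd' (by nlinarith)).mp h2
      have h5 : d ^ 2 - 1 = (d - 1) * (d + 1) := by
        obtain ⟨e, rfl⟩ : ∃ e, d = e + 1 := ⟨d - 1, by omega⟩
        simp only [Nat.add_sub_cancel]
        have : (e + 1) ^ 2 = e * (e + 1 + 1) + 1 := by ring
        omega
      rw [h5] at h4
      rcases (Nat.Prime.dvd_mul hp).mp h4 with h6 | h6
      · left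
        obtain ⟨c, hc⟩ := h6
        have : c < 2 := by
          by_contra h
          push Not at h
          have : p * 2 ≤ p * c := Nat.mul_le_mul_left p h
          omega
        interval_cases c
        · omega
        · omega
      · right
        obtain ⟨c, hc⟩ := h6
        have : c < 3 := by
          by_contra h
          push Not at h
          have : p * 3 ≤ p * c := Nat.mul_le_mul_left p h
          omega
        interval_cases c
        · omega
        · left; omega
        · right; omega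
    have h2 : ¬ p ^ 2 ∣ Nat.card G := by
      intro h2
      obtain ⟨K, hK⟩ := Sylow.exists_subgroup_card_pow_prime (G := G) p h2
      set P : Subgroup (Equiv.Perm (Fin (d ^ 2))) := K.map G.subtype with hPdef
      have hP : Nat.card P = p ^ 2 := by
        rw [hPdef, Subgroup.card_map_of_injective (Subgroup.subtype_injective G), hK]
      have hPG : P ≤ G := by
        rw [hPdef]; exact Subgroup.map_subtype_le K
      have h4 := pgroup_fix hp hP 1 (fun g hg hgp hg1 => by
        obtain ⟨M, hM⟩ := hG g (hPG hg)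
        exact prime_one hx hp hgp hg1 hM hd hdp hpd)
      -- a common fixed line
      have h5 : ∃ i : Fin (d ^ 2), ∀ g ∈ P, g i = i := by
        have hPp : IsPGroup p P := IsPGroup.of_card hP
        have h6 : ¬ p ∣ Nat.card (Fin (d ^ 2)) := by
          rw [Nat.card_eq_fintype_card, Fintype.card_fin]
          exact fun h => hpd (hp.dvd_of_dvd_pow h)
        obtain ⟨i, hi⟩ := hPp.nonempty_fixed_point_of_prime_not_dvd_card (Fin (d ^ 2)) h6
        exact ⟨i, fun g hg => hi ⟨g, hg⟩⟩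
      obtain ⟨i, hi⟩ := h5
      have h6 := burnside P 1 (fun g hg hg1 => by
        refine le_antisymm (h4 g hg hg1) ?_
        exact Finset.card_pos.mpr ⟨i, Finset.mem_filter.mpr ⟨Finset.mem_univ _, hi g hg⟩⟩)
      rw [hP, mul_one] at h6
      have hp1 : 1 ≤ p ^ 2 := Nat.one_le_pow _ _ hp.pos
      have h7 : d ^ 2 + (p ^ 2 - 1) = (d ^ 2 - 1) + p ^ 2 := by
        have : 1 ≤ d ^ 2 := Nat.one_le_pow _ _ (by omega)
        omega
      rw [h7] at h6
      have h8 : p ^ 2 ∣ d ^ 2 - 1 := (Nat.dvd_add_left (dvd_refl _)).mp h6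
      obtain ⟨e, he⟩ : ∃ e, d = e + 1 := ⟨d - 1, by omega⟩
      have h9 : d ^ 2 - 1 = e * (e + 2) := by
        rw [he]
        have : (e + 1) ^ 2 = e * (e + 2) + 1 := by ring
        omega
      rw [h9] at h8
      obtain ⟨c, hc⟩ := h8
      rcases hlist with hl | hl | hl
      · have : e = p := by omega
        rw [this] at hc
        have h10 : p + 2 = p * c := by
          have : p * (p + 2) = p * (p * c) := by rw [hc]; ring
          exact Nat.eq_of_mul_eq_mul_left hp.pos this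
        have : p ∣ 2 := (Nat.dvd_add_right (dvd_refl p)).mp ⟨c, h10⟩
        have := Nat.le_of_dvd two_pos this
        omega
      · have : e + 2 = p := by omega
        rw [this] at hc
        have h10 : e = p * c := by
          have : p * e = p * (p * c) := by rw [mul_comm p e, hc]; ring
          exact Nat.eq_of_mul_eq_mul_left hp.pos this
        have h11 : c = 0 := by
          by_contra h
          have : p * 1 ≤ p * c := Nat.mul_le_mul_left p (Nat.pos_of_ne_zero h)
          omega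
        rw [h11] at h10
        omega
      · -- `e + 2 = 2p`, `e = 2p - 2`
        have : e + 2 = 2 * p := by omega
        rw [this] at hc
        have h10 : e * 2 = p * c := by
          have : p * (e * 2) = p * (p * c) := by
            calc p * (e * 2) = e * (2 * p) := by ring
              _ = p ^ 2 * c := hc
              _ = _ := by ring
          exact Nat.eq_of_mul_eq_mul_left hp.pos this
        have h11 : p * c + 4 = 4 * p := by omega
        have : p ∣ 4 := by
          have h12 : p ∣ p * c + 4 := by rw [h11]; exact Dvd.intro_left 4 rfl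
          exact (Nat.dvd_add_right (Dvd.intro c rfl)).mp h12
        have := Nat.le_of_dvd (by norm_num) this
        omega
    refine ⟨Or.inr ⟨hlist, h2⟩, fun h3 => h2 ?_⟩
    exact (pow_dvd_pow p (by norm_num)).trans h3

end Pool.Agent.W864.Sym
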